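import Mathlib

/-!
# JOB Ball: a homeomorphism of the plane which moves `q` to `0` and is the identity outside the unit disc

`φ w = w - ρ(w) q` with `ρ w = max 0 (1 - 2 ‖w - q‖)`. `ρ` is 2-Lipschitz (`LipschitzWith` or directly: `|ρ w - ρ w'| ≤ 2 ‖w - w'‖`), so `w ↦ ρ(w) q` is Lipschitz with constant `2 ‖q‖ < 1/2` and
`ApproximatesLinearOn φ (ContinuousLinearEquiv.refl ℝ ℂ) univ (1/2)`; `ApproximatesLinearOn.toHomeomorph` (Mathlib.Analysis.Calculus.InverseFunctionTheorem.ApproximatesLinearOn; the norm of the inverse of the identity is `≤ 1`,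
`1/2 < 1`). `φ q = 0`; if `‖w‖ ≥ 1` then `‖w - q‖ ≥ 3/4`, `ρ w = 0`.
-/

open Topology

namespace Pool.Agent.Lib.MP_7c9e3d_gt

theorem exists_ballHomeo {q : ℂ} (hq : ‖q‖ < 1 / 4) :
    ∃ φ : ℂ ≃ₜ ℂ, φ q = 0 ∧ ∀ w : ℂ, 1 ≤ ‖w‖ → φ w = w := by
  let ρ : ℂ → ℝ := fun w => max 0 (1 - 2 * ‖w - q‖)
  let f : ℂ → ℂ := fun w => w - (ρ w : ℂ) * q
  have hρ : ∀ x y : ℂ, |ρ x - ρ y| ≤ 2 * ‖x - y‖ := by
    intro x y
    have h1 : |ρ x - ρ y| ≤ |(1 - 2 * ‖x - q‖) - (1 - 2 * ‖y - q‖)| := by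
      have h := abs_max_sub_max_le_abs (1 - 2 * ‖x - q‖) (1 - 2 * ‖y - q‖) 0
      show |max 0 (1 - 2 * ‖x - q‖) - max 0 (1 - 2 * ‖y - q‖)| ≤ _
      rw [max_comm 0, max_comm 0]
      exact h
    have h2 : |‖x - q‖ - ‖y - q‖| ≤ ‖x - y‖ := by
      have h3 := abs_norm_sub_norm_le (x - q) (y - q)
      have h4 : x - q - (y - q) = x - y := by ring
      rw [h4] at h3
      exact h3
    have h5 : (1 - 2 * ‖x - q‖) - (1 - 2 * ‖y - q‖) = -(2 * (‖x - q‖ - ‖y - q‖)) := by ring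
    rw [h5, abs_neg, abs_mul, abs_two] at h1
    linarith
  have hf : ApproximatesLinearOn f ((ContinuousLinearEquiv.refl ℝ ℂ : ℂ ≃L[ℝ] ℂ) : ℂ →L[ℝ] ℂ)
      Set.univ (1 / 2 : NNReal) := by
    intro x _ y _
    have e1 : f x - f y - ((ContinuousLinearEquiv.refl ℝ ℂ : ℂ ≃L[ℝ] ℂ) : ℂ →L[ℝ] ℂ) (x - y) =
        -(((ρ x - ρ y : ℝ) : ℂ) * q) := by
      show x - (ρ x : ℂ) * q - (y - (ρ y : ℂ) * q) - (x - y) = _
      push_cast
      ring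
    rw [e1, norm_neg, norm_mul, Complex.norm_real, Real.norm_eq_abs]
    have h1 := hρ x y
    have h2 : |ρ x - ρ y| * ‖q‖ ≤ (2 * ‖x - y‖) * (1 / 4) :=
      mul_le_mul h1 hq.le (norm_nonneg _) (by positivity)
    have h3 : ((1 / 2 : NNReal) : ℝ) = 1 / 2 := by norm_num
    rw [h3]
    linarith
  have hN : ‖((ContinuousLinearEquiv.refl ℝ ℂ : ℂ ≃L[ℝ] ℂ).symm : ℂ →L[ℝ] ℂ)‖₊ = 1 := by
    have h1 : ((ContinuousLinearEquiv.refl ℝ ℂ : ℂ ≃L[ℝ] ℂ).symm : ℂ →L[ℝ] ℂ) =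
        ContinuousLinearMap.id ℝ ℂ := rfl
    rw [h1]
    apply NNReal.eq
    rw [coe_nnnorm, ContinuousLinearMap.norm_id, NNReal.coe_one]
  refine ⟨ApproximatesLinearOn.toHomeomorph f hf (Or.inr ?_), ?_, ?_⟩
  · rw [hN, inv_one]
    rw [← NNReal.coe_lt_coe]
    norm_num
  · show q - ((max 0 (1 - 2 * ‖q - q‖) : ℝ) : ℂ) * q = 0
    rw [sub_self, norm_zero, mul_zero, sub_zero, max_eq_right zero_le_one, Complex.ofReal_one,
      one_mul, sub_self]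
  · intro w hw
    show w - ((max 0 (1 - 2 * ‖w - q‖) : ℝ) : ℂ) * q = w
    have h1 : ‖w‖ ≤ ‖w - q‖ + ‖q‖ := by
      have h := norm_add_le (w - q) q
      rw [sub_add_cancel] at h
      exact h
    rw [max_eq_left (by linarith), Complex.ofReal_zero, zero_mul, sub_zero]

/-- Such a homeomorphism maps the open unit disc into itself. -/
theorem norm_lt_of_homeo {φ : ℂ ≃ₜ ℂ} (h : ∀ w : ℂ, 1 ≤ ‖w‖ → φ w = w) {w : ℂ} (hw : ‖w‖ < 1) :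
    ‖φ w‖ < 1 := by
  by_contra hcon
  have h1 : φ (φ w) = φ w := h _ (not_lt.1 hcon)
  have h2 : φ w = w := φ.injective h1
  rw [h2] at hcon
  exact hcon hw

end Pool.Agent.Lib.MP_7c9e3d_gt
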