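import Mathlib

/-!
# Definitions for the construction of a manifold of Rudin-Zenor type

`HP` is the open upper half plane, `Pt I` the set of points: the disjoint union of `HP` and of the
fibres `{α} × [0, ∞)`, `α : I`.  For a family `g α : HP → Pt I` the map `psi g α : ℂ → Pt I` is the
chart at the fibre `α`: the ray `[0, ∞)` is mapped to the fibre, and `w` outside the ray to
`g α (rt w)`, where `rt w` is the square root of `w` in the upper half plane.  `stage g S` is the
topology on `Pt I` coinduced by the inclusion of `HP` and the charts `psi g β`, `β ∈ S`.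
-/

open Topology

namespace Pool.Agent.Lib.MP_7c9e3d_gt

/-- The open upper half plane. -/
abbrev HP : Type := {z : ℂ // 0 < z.im}

/-- The points of the manifold. -/
abbrev Pt (I : Type) : Type := HP ⊕ (I × NNReal)

/-- The ray `[0, ∞)` in the complex plane. -/
def ray : Set ℂ := {w | w.im = 0 ∧ 0 ≤ w.re}

/-- The square root in the upper half plane. -/
noncomputable def rt (w : ℂ) : ℂ := Complex.I * Complex.exp (Complex.log (-w) / 2)

theorem neg_mem_slitPlane {w : ℂ} (h : w ∉ ray) : -w ∈ Complex.slitPlane := by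
  rw [Complex.mem_slitPlane_iff]
  by_cases h1 : w.im = 0
  · left
    have : ¬ 0 ≤ w.re := fun h2 => h ⟨h1, h2⟩
    push Not at this
    simpa using this
  · right
    simpa using h1

theorem rt_im_pos {w : ℂ} (h : w ∉ ray) : 0 < (rt w).im := by
  have h1 := neg_mem_slitPlane h
  have h2 : -Real.pi < (-w).arg := Complex.neg_pi_lt_arg _
  have h3 : (-w).arg < Real.pi := lt_of_le_of_ne (Complex.arg_le_pi _)
    (Complex.mem_slitPlane_iff_arg.1 h1).1
  have h4 : (Complex.log (-w) / 2).im = (-w).arg / 2 := by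
    rw [show (2 : ℂ) = ((2 : ℝ) : ℂ) by norm_num, Complex.div_ofReal_im, Complex.log_im]
  have h5 : (rt w).im = (Complex.exp (Complex.log (-w) / 2)).re := by
    rw [rt, Complex.mul_im]
    simp
  rw [h5, Complex.exp_re, h4]
  exact mul_pos (Real.exp_pos _) (Real.cos_pos_of_mem_Ioo ⟨by linarith, by linarith⟩)

/-- The point `rt w` of the half plane. -/
noncomputable def rtH (w : ℂ) (h : w ∉ ray) : HP := ⟨rt w, rt_im_pos h⟩

variable {I : Type}

/-- The chart at the fibre `α`. -/
noncomputable def psi (g : I → HP → Pt I) (α : I) (w : ℂ) : Pt I :=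
  open Classical in
  if h : w ∈ ray then Sum.inr (α, ⟨w.re, h.2⟩) else g α (rtH w h)

/-- The topology of the stage `S`. -/
@[reducible] def stage (g : I → HP → Pt I) (S : Set I) : TopologicalSpace (Pt I) where
  IsOpen U := IsOpen ((Sum.inl : HP → Pt I) ⁻¹' U) ∧ ∀ β ∈ S, IsOpen (psi g β ⁻¹' U)
  isOpen_univ := ⟨isOpen_univ, fun _ _ => isOpen_univ⟩
  isOpen_inter U V hU hV := ⟨hU.1.inter hV.1, fun β hβ => (hU.2 β hβ).inter (hV.2 β hβ)⟩
  isOpen_sUnion s hs := by
    constructor
    · rw [Set.preimage_sUnion]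
      exact isOpen_biUnion fun U hU => (hs U hU).1
    · intro β hβ
      rw [Set.preimage_sUnion]
      exact isOpen_biUnion fun U hU => (hs U hU).2 β hβ

theorem isOpen_stage_iff {g : I → HP → Pt I} {S : Set I} {U : Set (Pt I)} :
    IsOpen[stage g S] U ↔
      IsOpen ((Sum.inl : HP → Pt I) ⁻¹' U) ∧ ∀ β ∈ S, IsOpen (psi g β ⁻¹' U) := Iff.rfl

/-- The set of the points in the half plane or in a fibre with index in `S`. -/
def MS (S : Set I) : Set (Pt I) := {p | ∀ a : I × NNReal, p = Sum.inr a → a.1 ∈ S}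

@[simp] theorem inl_mem_MS {S : Set I} (z : HP) : (Sum.inl z : Pt I) ∈ MS S := by
  intro a h
  cases h

@[simp] theorem inr_mem_MS {S : Set I} {a : I × NNReal} : (Sum.inr a : Pt I) ∈ MS S ↔ a.1 ∈ S := by
  constructor
  · intro h
    exact h a rfl
  · intro h b hb
    cases hb
    exact h

/-- The projection to the closed half plane; the fibre `α` goes to the real number `x α`. -/
def pr (x : I → ℝ) : Pt I → ℂ := Sum.elim (fun z => z.1) (fun a => (x a.1 : ℂ))

@[simp] theorem pr_inl (x : I → ℝ) (z : HP) : pr x (Sum.inl z) = z.1 := rfl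

@[simp] theorem pr_inr (x : I → ℝ) (a : I × NNReal) : pr x (Sum.inr a) = (x a.1 : ℂ) := rfl

/-- `U` is `ε`-small: the projection of `U` and the parts of `U` in the fibres have diameter
less than `ε`. -/
structure IsSmall (x : I → ℝ) (ε : ℝ) (U : Set (Pt I)) : Prop where
  proj : ∀ p ∈ U, ∀ q ∈ U, ‖pr x p - pr x q‖ < ε
  fib : ∀ (γ : I) (s s' : NNReal), (Sum.inr (γ, s) : Pt I) ∈ U → (Sum.inr (γ, s') : Pt I) ∈ U →
    |(s : ℝ) - s'| < ε

/-- The requirements for the map `h = g α` in terms of the topology `t` of the previous stage. -/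
structure Good (x : I → ℝ) (x0 : ℝ) (M : Set (Pt I)) (t : TopologicalSpace (Pt I))
    (T : Set (Set (Pt I))) (h : HP → Pt I) : Prop where
  maps : ∀ z, h z ∈ M
  emb : @IsOpenEmbedding HP (Pt I) _ t h
  lim : ∀ R ε : ℝ, 0 < ε → ∃ δ : ℝ, 0 < δ ∧ ∀ z : HP, |z.1.re| < R → z.1.im < δ →
    ‖pr x (h z) - x0‖ < ε
  small : ∀ R ε : ℝ, 0 < ε → ∃ δ : ℝ, 0 < δ ∧ ∀ z z' : HP, |z.1.re| < R → z.1.im < δ →
    |z'.1.re| < R → z'.1.im < δ → ∀ (γ : I) (s s' : NNReal), h z = Sum.inr (γ, s) →
      h z' = Sum.inr (γ, s') → |(s : ℝ) - s'| < ε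
  hit : ∀ a ∈ T, ∀ u ε : ℝ, 0 < ε → ∃ z : HP, ‖z.1 - u‖ < ε ∧ h z ∈ a

/-- The sets which have to be caught by the fibre `α`. -/
def targets [LinearOrder I] (x : I → ℝ) (A : I → Set (Pt I)) (α : I) : Set (Set (Pt I)) :=
  {a | ∃ ξ, ξ < α ∧ a = A ξ ∧ A ξ ⊆ MS (Set.Iio α) ∧ (x α : ℂ) ∈ closure (pr x '' A ξ)}

/-- The requirement for `g α`. -/
def Spec [LinearOrder I] (x : I → ℝ) (A : I → Set (Pt I)) (g : I → HP → Pt I) (α : I) : Prop :=
  Good x (x α) (MS (Set.Iio α)) (stage g (Set.Iio α)) (targets x A α) (g α)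

end Pool.Agent.Lib.MP_7c9e3d_gt
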