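import Pool.Agent.Lib.MP_7c9e3d_gt.Sml

/-!
# JOB Cht: small charts

* `exists_chartH`: `E (u + i v) = (z.re + u) + i z.im e^v` is a homeomorphism `ℂ → HP` (inverse `a + i b ↦ (a - z.re) + i log (b / z.im)`).
* `exists_chart`: let `V` be the set of `exists_small` for `p`, `ε`. If `p = inl z` let `e₀ = inl ∘ E`, `w₀ = 0`; if `p = inr (β, s)` let `e₀ = psi g β`, `w₀ = s`. `e₀` is an open embedding (`inl_emb`, `psi_emb`),
  `e₀ w₀ = p`, `e₀ w ∈ MS S`; choose `r > 0` with `closedBall w₀ r ⊆ e₀ ⁻¹' (U ∩ V)` and `e w = e₀ (w₀ + r w)` (composition with the homeomorphism `w ↦ w₀ + r w` of `ℂ`).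
-/

open Topology

namespace Pool.Agent.Lib.MP_7c9e3d_gt

private theorem cht_re (a b : ℝ) : ((a : ℂ) + (b : ℂ) * Complex.I).re = a := by simp

private theorem cht_im (a b : ℝ) : ((a : ℂ) + (b : ℂ) * Complex.I).im = b := by simp

/-- The homeomorphism `u + i v ↦ (z.re + u) + i z.im e^v`. -/
private noncomputable def cht_homeo (z : HP) : ℂ ≃ₜ HP where
  toFun w := ⟨((z.1.re + w.re : ℝ) : ℂ) + ((z.1.im * Real.exp w.im : ℝ) : ℂ) * Complex.I, by
    rw [cht_im]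
    exact mul_pos z.2 (Real.exp_pos _)⟩
  invFun a := ((a.1.re - z.1.re : ℝ) : ℂ) + ((Real.log (a.1.im / z.1.im) : ℝ) : ℂ) * Complex.I
  left_inv w := by
    apply Complex.ext
    · rw [cht_re, cht_re]
      ring
    · rw [cht_im, cht_im, mul_div_cancel_left₀, Real.log_exp]
      exact z.2.ne'
  right_inv a := by
    apply Subtype.ext
    apply Complex.ext
    · rw [cht_re, cht_re]
      ring
    · have h1 : 0 < a.1.im / z.1.im := div_pos a.2 z.2
      rw [cht_im, cht_im, Real.exp_log h1, mul_div_cancel₀ _ z.2.ne']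
  continuous_toFun := by
    refine Continuous.subtype_mk ?_ _
    fun_prop
  continuous_invFun := by
    have h1 : Continuous fun a : HP => Real.log (a.1.im / z.1.im) := by
      refine Continuous.log (by fun_prop) fun a => ?_
      exact (div_pos a.2 z.2).ne'
    fun_prop

theorem exists_chartH (z : HP) : ∃ E : ℂ → HP, IsOpenEmbedding E ∧ E 0 = z := by
  refine ⟨cht_homeo z, (cht_homeo z).isOpenEmbedding, ?_⟩
  apply Subtype.ext
  apply Complex.ext
  · change (((z.1.re + (0 : ℂ).re : ℝ) : ℂ) +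
      ((z.1.im * Real.exp (0 : ℂ).im : ℝ) : ℂ) * Complex.I).re = z.1.re
    rw [cht_re, Complex.zero_re, add_zero]
  · change (((z.1.re + (0 : ℂ).re : ℝ) : ℂ) +
      ((z.1.im * Real.exp (0 : ℂ).im : ℝ) : ℂ) * Complex.I).im = z.1.im
    rw [cht_im, Complex.zero_im, Real.exp_zero, mul_one]

variable {I : Type} [LinearOrder I] [WellFoundedLT I]
variable {x : I → ℝ} {A : I → Set (Pt I)} {g : I → HP → Pt I} {S : Set I}

/-- A chart at `p` in which the unit disc is small. -/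
structure IsChart (x : I → ℝ) (M : Set (Pt I)) (t : TopologicalSpace (Pt I)) (p : Pt I)
    (U : Set (Pt I)) (ε : ℝ) (e : ℂ → Pt I) : Prop where
  emb : @IsOpenEmbedding ℂ (Pt I) _ t e
  center : e 0 = p
  mem : ∀ w, e w ∈ M
  sub : ∀ w, ‖w‖ ≤ 1 → e w ∈ U
  small : ∀ (γ : I) (s s' : NNReal) (w w' : ℂ), ‖w‖ ≤ 1 → ‖w'‖ ≤ 1 →
    e w = Sum.inr (γ, s) → e w' = Sum.inr (γ, s') → |(s : ℝ) - s'| < ε

omit [LinearOrder I] [WellFoundedLT I] in
private theorem cht_gen {x : I → ℝ} {M : Set (Pt I)} {t : TopologicalSpace (Pt I)} {p : Pt I}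
    {U V : Set (Pt I)} {ε : ℝ} (hU : IsOpen[t] U) (hV : IsOpen[t] V) (hpU : p ∈ U) (hpV : p ∈ V)
    (hs : IsSmall x ε V) (e₀ : ℂ → Pt I) (he : @IsOpenEmbedding ℂ (Pt I) _ t e₀) (w₀ : ℂ)
    (hw : e₀ w₀ = p) (hM : ∀ w, e₀ w ∈ M) : ∃ e : ℂ → Pt I, IsChart x M t p U ε e := by
  let _ := t
  have h1 : IsOpen (e₀ ⁻¹' (U ∩ V)) := (hU.inter hV).preimage he.continuous
  have h2 : w₀ ∈ e₀ ⁻¹' (U ∩ V) := by
    rw [Set.mem_preimage, hw]
    exact ⟨hpU, hpV⟩
  obtain ⟨r, hr, hball⟩ := Metric.isOpen_iff.1 h1 w₀ h2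
  have hr2 : ((r / 2 : ℝ) : ℂ) ≠ 0 := by
    rw [Complex.ofReal_ne_zero]
    positivity
  have hmem : ∀ w : ℂ, ‖w‖ ≤ 1 → e₀ (w₀ + ((r / 2 : ℝ) : ℂ) * w) ∈ U ∩ V := by
    intro w hw1
    apply hball
    rw [Metric.mem_ball, dist_eq_norm, add_sub_cancel_left, norm_mul, Complex.norm_real,
      Real.norm_of_nonneg (by positivity)]
    have h3 : r / 2 * ‖w‖ ≤ r / 2 * 1 := mul_le_mul_of_nonneg_left hw1 (by positivity)
    linarith
  refine ⟨fun w => e₀ (w₀ + ((r / 2 : ℝ) : ℂ) * w), ?_, ?_, ?_, ?_, ?_⟩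
  · exact he.comp (((Homeomorph.mulLeft₀ _ hr2).trans (Homeomorph.addLeft w₀)).isOpenEmbedding)
  · rw [mul_zero, add_zero, hw]
  · intro w
    exact hM _
  · intro w hw1
    exact (hmem w hw1).1
  · intro γ s s' w w' hw1 hw2 h3 h4
    refine hs.fib γ s s' ?_ ?_
    · rw [← h3]
      exact (hmem w hw1).2
    · rw [← h4]
      exact (hmem w' hw2).2

theorem exists_chart (hS : IsLowerSet S) (h : Specs x A g S) {p : Pt I} (hp : p ∈ MS S)
    {U : Set (Pt I)} (hU : IsOpen[stage g S] U) (hpU : p ∈ U) {ε : ℝ} (hε : 0 < ε) :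
    ∃ e : ℂ → Pt I, IsChart x (MS S) (stage g S) p U ε e := by
  obtain ⟨V, hV, hpV, hs⟩ := exists_small hS h hp hε
  rcases mem_MS_or hp with ⟨z, rfl⟩ | ⟨β, hβ, s, rfl⟩
  · obtain ⟨E, hE, hE0⟩ := exists_chartH z
    have h1 := inl_emb hS h.emb
    let _ := stage g S
    exact cht_gen hU hV hpU hpV hs (fun w => Sum.inl (E w)) (h1.comp hE) 0
      (by rw [hE0]) fun w => inl_mem_MS _
  · refine cht_gen hU hV hpU hpV hs (psi g β) (psi_emb hS h.emb hβ) ((s : ℝ) : ℂ)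
      (psi_coe g β s) fun w => ?_
    exact MS_mono (fun γ hγ => hS hγ hβ) (psi_mem_MS (h β hβ).maps w)

end Pool.Agent.Lib.MP_7c9e3d_gt
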