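import Pool.Agent.Lib.MP_7c9e3d_gt.PrA

/-!
# JOB Cls: the half plane is dense, and the fibres catch their targets

* `dense_inl`: well-founded induction on `β` for `p = inr (β, s)` (all `s`). Let `U ∋ p` be open in `stage g S`. `psi g β ⁻¹' U` is open and contains `s` (`psi_coe`), so it contains some `w ∉ ray`
  (`exists_notMem_ray`); `q = psi g β w = g β (rtH w) ∈ MS (Iio β) ∩ U`; `q` is `inl z` or `inr (γ, s')` with `γ < β`, in the closure by induction, so `U` meets `range inl`. (`mem_closure_iff` with the instance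
  `stage g S`: `@mem_closure_iff _ (stage g S)`.)
* `mem_closure_of_target`: `U ∋ inr (β, s)` open; `z ↦ z ^ 2` is continuous at the real number `u = √s`, so there is `ε` with `z ^ 2 ∈ psi g β ⁻¹' U` for `‖z - u‖ < ε`; `hit` gives `z : HP` with `g β z ∈ a`, and
  `g β z = psi g β (z ^ 2) ∈ U` (`psi_sq`).
-/

open Topology

namespace Pool.Agent.Lib.MP_7c9e3d_gt

variable {I : Type} [LinearOrder I] [WellFoundedLT I]
variable {x : I → ℝ} {A : I → Set (Pt I)} {g : I → HP → Pt I} {S : Set I}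

private theorem cls_aux (hS : IsLowerSet S) (h : Specs x A g S) (β : I) :
    ∀ (_ : β ∈ S) (s : NNReal),
      (Sum.inr (β, s) : Pt I) ∈ @closure _ (stage g S) (Set.range (Sum.inl : HP → Pt I)) := by
  induction β using WellFoundedLT.induction with
  | _ β ih =>
    intro hβ s
    rw [@mem_closure_iff _ (stage g S)]
    intro U hU hmem
    have hU2 : IsOpen (psi g β ⁻¹' U) := hU.2 β hβ
    have hsU : ((s : ℝ) : ℂ) ∈ psi g β ⁻¹' U := by
      rw [Set.mem_preimage, psi_coe]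
      exact hmem
    obtain ⟨w, hw, hwr⟩ := exists_notMem_ray s hU2 hsU
    rw [Set.mem_preimage, psi_of_notMem g β hwr] at hw
    rcases mem_MS_or ((h β hβ).maps (rtH w hwr)) with ⟨z, hz⟩ | ⟨γ, hγ, s', hz⟩
    · rw [hz] at hw
      exact ⟨Sum.inl z, hw, ⟨z, rfl⟩⟩
    · rw [hz] at hw
      have h1 := ih γ hγ (hS (le_of_lt hγ) hβ) s'
      rw [@mem_closure_iff _ (stage g S)] at h1
      exact h1 U hU hw

theorem dense_inl (hS : IsLowerSet S) (h : Specs x A g S) {p : Pt I} (hp : p ∈ MS S) :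
    p ∈ @closure _ (stage g S) (Set.range (Sum.inl : HP → Pt I)) := by
  rcases mem_MS_or hp with ⟨z, rfl⟩ | ⟨β, hβ, s, rfl⟩
  · exact @subset_closure _ (stage g S) _ _ ⟨z, rfl⟩
  · exact cls_aux hS h β hβ s

omit [WellFoundedLT I] in
theorem mem_closure_of_target (h : Specs x A g S) {β : I} (hβ : β ∈ S) {a : Set (Pt I)}
    (ha : a ∈ targets x A β) (s : NNReal) :
    (Sum.inr (β, s) : Pt I) ∈ @closure _ (stage g S) a := by
  rw [@mem_closure_iff _ (stage g S)]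
  intro U hU hmem
  have hU2 : IsOpen (psi g β ⁻¹' U) := hU.2 β hβ
  have hsU : ((s : ℝ) : ℂ) ∈ psi g β ⁻¹' U := by
    rw [Set.mem_preimage, psi_coe]
    exact hmem
  have hcont : Continuous fun z : ℂ => z ^ 2 := continuous_pow 2
  have hopen : IsOpen ((fun z : ℂ => z ^ 2) ⁻¹' (psi g β ⁻¹' U)) := hU2.preimage hcont
  have hmem2 : ((Real.sqrt s : ℝ) : ℂ) ∈ (fun z : ℂ => z ^ 2) ⁻¹' (psi g β ⁻¹' U) := by
    have h1 : ((Real.sqrt s : ℝ) : ℂ) ^ 2 = ((s : ℝ) : ℂ) := by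
      rw [← Complex.ofReal_pow, Real.sq_sqrt (NNReal.coe_nonneg s)]
    show ((Real.sqrt s : ℝ) : ℂ) ^ 2 ∈ psi g β ⁻¹' U
    rw [h1]
    exact hsU
  obtain ⟨ε, hε, hball⟩ := Metric.isOpen_iff.1 hopen _ hmem2
  obtain ⟨z, hz1, hz2⟩ := (h β hβ).hit a ha (Real.sqrt s) ε hε
  have h3 : z.1 ∈ Metric.ball ((Real.sqrt s : ℝ) : ℂ) ε := by
    rw [Metric.mem_ball, dist_eq_norm]
    exact hz1
  have h4 : psi g β (z.1 ^ 2) ∈ U := hball h3
  rw [psi_sq] at h4
  exact ⟨g β z, h4, hz2⟩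

end Pool.Agent.Lib.MP_7c9e3d_gt
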