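import Pool.Agent.Lib.MP_7c9e3d_gt.Pick

/-!
# JOB Disc: properties of the sequence of discs

`Discs`: the conclusion of `exists_discs`. `ρ (k + 1) < ρ k` (`annulus` at `w = 0`), `ρ` is antitone and tends to 0 (`ρ k ≤ 1/(k+1)`).
* `eq_of_annulus`: if `ρ (j + 1) < r < ρ j` and `ρ (k + 1) < r < ρ k` then `j = k`.
* `locallyFinite`: at `p ∈ M` the open set `{y | ‖pr x p - x0‖ / 2 < ‖pr x y - x0‖}` meets disc `k` only if `‖pr x p - x0‖ / 2 < ρ k`, only finitely many `k`; at `p ∉ M` the open set `Mᶜ` meets no disc.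
* `tendsto_im`, `strictAnti_im`: `(b k).im ≤ ‖b k - x0‖ = ‖pr x (e k (q k)) - x0‖ < ρ k` (`x0` is real), `ρ (k + 1) < (b k).im`.
* `tendsto_y`: `|(b k).re - x0 - (b k).im * u k| ≤ ρ k + ρ k * |u k| ≤ 1/(k+1)`.
-/

open Topology

namespace Pool.Agent.Lib.MP_7c9e3d_gt

variable {I : Type}

/-- The sequence of discs. -/
structure Discs (x : I → ℝ) (x0 : ℝ) (M : Set (Pt I)) (t : TopologicalSpace (Pt I))
    (a : ℕ → Set (Pt I)) (u ρ : ℕ → ℝ) (e : ℕ → ℂ → Pt I) (q : ℕ → ℂ) (b : ℕ → HP) : Prop where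
  pos : ∀ k, 0 < ρ k
  le : ∀ k : ℕ, ρ k ≤ 1 / ((k + 1 : ℝ) * (1 + |u k|))
  disc : ∀ k : ℕ, IsDisc x x0 M t (a k) (ρ k) (ρ (k + 1)) (1 / (k + 1 : ℝ)) (e k) (q k) (b k)

variable {x : I → ℝ} {x0 : ℝ} {M : Set (Pt I)} {t : TopologicalSpace (Pt I)}
variable {a : ℕ → Set (Pt I)} {u ρ : ℕ → ℝ} {e : ℕ → ℂ → Pt I} {q : ℕ → ℂ} {b : ℕ → HP}

theorem Discs.strictAnti (h : Discs x x0 M t a u ρ e q b) : StrictAnti ρ := by
  refine strictAnti_nat_of_succ_lt fun k => ?_
  obtain ⟨h1, h2⟩ := (h.disc k).annulus 0 (by simp)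
  exact h1.trans h2

theorem Discs.tendsto (h : Discs x x0 M t a u ρ e q b) :
    Filter.Tendsto ρ Filter.atTop (𝓝 0) := by
  have h1 : ∀ k, ρ k ≤ 1 / ((k : ℝ) + 1) := by
    intro k
    refine (h.le k).trans ?_
    have hk : (0 : ℝ) < (k : ℝ) + 1 := by positivity
    have hu : (1 : ℝ) ≤ 1 + |u k| := by
      have := abs_nonneg (u k)
      linarith
    exact one_div_le_one_div_of_le hk (le_mul_of_one_le_right hk.le hu)
  exact squeeze_zero (fun k => (h.pos k).le) h1 tendsto_one_div_add_atTop_nhds_zero_nat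

theorem Discs.eq_of_annulus (h : Discs x x0 M t a u ρ e q b) {j k : ℕ} {r : ℝ}
    (h1 : ρ (j + 1) < r) (h2 : r < ρ j) (h3 : ρ (k + 1) < r) (h4 : r < ρ k) : j = k := by
  rcases lt_trichotomy j k with hjk | hjk | hjk
  · exfalso
    have := h.strictAnti.antitone (Nat.succ_le_of_lt hjk)
    have h5 : ρ k ≤ ρ (j + 1) := this
    linarith
  · exact hjk
  · exfalso
    have := h.strictAnti.antitone (Nat.succ_le_of_lt hjk)
    have h5 : ρ j ≤ ρ (k + 1) := this
    linarith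

theorem Discs.disjoint (h : Discs x x0 M t a u ρ e q b) {j k : ℕ} {w w' : ℂ} (hw : ‖w‖ ≤ 1)
    (hw' : ‖w'‖ ≤ 1) (he : pr x (e j w) = pr x (e k w')) : j = k := by
  obtain ⟨h1, h2⟩ := (h.disc j).annulus w hw
  obtain ⟨h3, h4⟩ := (h.disc k).annulus w' hw'
  rw [he] at h1 h2
  exact h.eq_of_annulus h1 h2 h3 h4

theorem Discs.locallyFinite (D : StepData x x0 M t) (h : Discs x x0 M t a u ρ e q b) :
    @LocallyFinite _ _ t fun k => e k '' Metric.closedBall 0 1 := by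
  intro p
  by_cases hp : p ∈ M
  · have hd0 : 0 < ‖pr x p - x0‖ := norm_pos_iff.2 (sub_ne_zero.2 (D.ne p hp))
    have hU : IsOpen[t] {y | ‖pr x p - x0‖ / 2 < ‖pr x y - x0‖} := by
      let := t
      exact isOpen_lt continuous_const ((D.cont.sub continuous_const).norm)
    refine ⟨{y | ‖pr x p - x0‖ / 2 < ‖pr x y - x0‖}, ?_, ?_⟩
    · let := t
      refine hU.mem_nhds ?_
      change ‖pr x p - x0‖ / 2 < ‖pr x p - x0‖
      linarith
    · have h1 : ∀ᶠ k in Filter.atTop, ρ k < ‖pr x p - x0‖ / 2 :=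
        h.tendsto.eventually_lt_const (by linarith)
      obtain ⟨N, hN⟩ := Filter.eventually_atTop.1 h1
      refine (Set.finite_lt_nat N).subset ?_
      rintro k ⟨y, ⟨w, hw, rfl⟩, hy⟩
      by_contra hk
      have h3 := hN k (not_lt.1 hk)
      have h2 := ((h.disc k).annulus w (by simpa using hw)).2
      have h4 : ‖pr x p - x0‖ / 2 < ‖pr x (e k w) - x0‖ := hy
      linarith
  · refine ⟨Mᶜ, ?_, ?_⟩
    · let := t
      exact D.compl_open.mem_nhds hp
    · refine Set.finite_empty.subset ?_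
      rintro k ⟨y, ⟨w, hw, rfl⟩, hy⟩
      exact hy ((h.disc k).mem w)

private theorem disc_norm_lt (h : Discs x x0 M t a u ρ e q b) (k : ℕ) :
    ‖(b k).1 - (x0 : ℂ)‖ < ρ k := by
  have h1 := ((h.disc k).annulus (q k) ((h.disc k).norm_q.le.trans (by norm_num))).2
  rw [(h.disc k).eq_b, pr_inl] at h1
  exact h1

private theorem disc_im_lt (h : Discs x x0 M t a u ρ e q b) (k : ℕ) : (b k).1.im < ρ k := by
  refine lt_of_le_of_lt ?_ (disc_norm_lt h k)
  have h1 := Complex.abs_im_le_norm ((b k).1 - (x0 : ℂ))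
  rw [Complex.sub_im, Complex.ofReal_im, sub_zero] at h1
  exact (le_abs_self _).trans h1

theorem Discs.strictAnti_im (h : Discs x x0 M t a u ρ e q b) : StrictAnti fun k => (b k).1.im := by
  refine strictAnti_nat_of_succ_lt fun k => ?_
  exact (disc_im_lt h (k + 1)).trans (h.disc k).lt_im

theorem Discs.tendsto_im (h : Discs x x0 M t a u ρ e q b) :
    Filter.Tendsto (fun k => (b k).1.im) Filter.atTop (𝓝 0) := by
  exact squeeze_zero (fun k => (b k).2.le) (fun k => (disc_im_lt h k).le) h.tendsto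

theorem Discs.tendsto_y (h : Discs x x0 M t a u ρ e q b) :
    Filter.Tendsto (fun k => (b k).1.re - x0 - (b k).1.im * u k) Filter.atTop (𝓝 0) := by
  refine squeeze_zero_norm (a := fun k : ℕ => 1 / ((k : ℝ) + 1)) (fun k => ?_)
    tendsto_one_div_add_atTop_nhds_zero_nat
  have h1 : |(b k).1.re - x0| ≤ ρ k := by
    have h2 := Complex.abs_re_le_norm ((b k).1 - (x0 : ℂ))
    rw [Complex.sub_re, Complex.ofReal_re] at h2
    exact h2.trans (disc_norm_lt h k).le
  have h3 : |(b k).1.im * u k| ≤ ρ k * |u k| := by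
    rw [abs_mul, abs_of_pos (b k).2]
    exact mul_le_mul_of_nonneg_right (disc_im_lt h k).le (abs_nonneg _)
  have hk : (0 : ℝ) < (k : ℝ) + 1 := by positivity
  have hu : (0 : ℝ) < 1 + |u k| := by
    have := abs_nonneg (u k)
    linarith
  calc ‖(b k).1.re - x0 - (b k).1.im * u k‖ ≤ |(b k).1.re - x0| + |(b k).1.im * u k| := by
        rw [Real.norm_eq_abs]
        exact abs_sub _ _
    _ ≤ ρ k + ρ k * |u k| := add_le_add h1 h3
    _ = ρ k * (1 + |u k|) := by ring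
    _ ≤ 1 / ((k + 1 : ℝ) * (1 + |u k|)) * (1 + |u k|) :=
        mul_le_mul_of_nonneg_right (h.le k) hu.le
    _ = 1 / ((k : ℝ) + 1) := by field_simp

end Pool.Agent.Lib.MP_7c9e3d_gt
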