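import Pool.Agent.Lib.MP_7c9e3d_gt.Base

/-!
# The properties of the final stage (definition)
-/

open Topology

namespace Pool.Agent.Lib.MP_7c9e3d_gt

/-- The properties of the whole space. -/
structure FinalData {I : Type} [LinearOrder I] (x : I → ℝ) (t : TopologicalSpace (Pt I)) :
    Prop where
  inj : Function.Injective x
  unc : Uncountable I
  count : ∀ α : I, (Set.Iio α).Countable
  t2 : @T2Space _ t
  cont : @Continuous _ _ t _ (pr x)
  inl_emb : @IsOpenEmbedding HP (Pt I) _ t Sum.inl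
  chart : ∀ α : I, ∃ e : ℂ → Pt I, @IsOpenEmbedding ℂ (Pt I) _ t e ∧
    (∀ s : NNReal, ∃ w, e w = Sum.inr (α, s)) ∧ ∀ w, e w ∈ MS (Set.Iic α)
  open_MS : ∀ α : I, IsOpen[t] (MS (Set.Iio α))
  dense : ∀ p, p ∈ @closure _ t (Set.range (Sum.inl : HP → Pt I))
  small : ∀ (p : Pt I) (ε : ℝ), 0 < ε → ∃ U, IsOpen[t] U ∧ p ∈ U ∧ IsSmall x ε U
  catches : ∀ B : Set (Pt I), B.Countable → ∃ α : I, ∀ γ, α ≤ γ →
    (x γ : ℂ) ∈ closure (pr x '' B) → ∀ s : NNReal, (Sum.inr (γ, s) : Pt I) ∈ @closure _ t B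

end Pool.Agent.Lib.MP_7c9e3d_gt
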