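import Pool.Agent.Lib.MP_7c9e3d_gt.Base

/-!
# JOB Idx: the index set, from the continuum hypothesis

`I = (Cardinal.aleph 1).ord.ToType` (a well-ordered type in `Type`): `#I = ℵ₁` (`Cardinal.mk_ord_toType` or the present name), all initial segments are countable (`Cardinal.mk_Iio_ord_toType`: `#(Iio a) < ℵ₁`, `Cardinal.lt_aleph_one_iff`
..). `#(Set ℕ) = 2 ^ ℵ₀ = 𝔠 ≤ ℵ₁`, so `𝔠 = ℵ₁` (`Cardinal.aleph_one_le_continuum`).
* `x : I → ℝ` injective: `#I = ℵ₁ ≤ 𝔠 = #ℝ` (`Cardinal.mk_real`).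
* `#(Pt I) = 𝔠` (`HP` embeds in `ℂ`, `I × NNReal` has cardinality `ℵ₁ * 𝔠`; only `≤ 𝔠` is needed), `#(ℕ → Pt I) ≤ 𝔠 ^ ℵ₀ = 𝔠 ≤ #I`, so there is a surjection `f : I → (ℕ → Pt I)` (an injection the other way and
  `Function.invFun`), `A ξ = Set.range (f ξ)`. A nonempty countable set is a range (`Set.Countable.exists_eq_range`).
-/

open Topology

namespace Pool.Agent.Lib.MP_7c9e3d_gt

theorem exists_index (h : Cardinal.mk (Set ℕ) ≤ Cardinal.aleph 1) :
    ∃ (I : Type) (_ : LinearOrder I) (_ : WellFoundedLT I) (x : I → ℝ) (A : I → Set (Pt I)),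
      Uncountable I ∧ (∀ α : I, (Set.Iio α).Countable) ∧ Function.Injective x ∧
      ∀ B : Set (Pt I), B.Countable → B.Nonempty → ∃ ξ, A ξ = B := by
  have hc : Cardinal.continuum ≤ Cardinal.aleph 1 := by
    rwa [Cardinal.mk_set, Cardinal.mk_nat, Cardinal.two_power_aleph0] at h
  obtain ⟨I, hlin, hwf, hI, hIio⟩ : ∃ (I : Type) (_ : LinearOrder I) (_ : WellFoundedLT I),
      Cardinal.mk I = Cardinal.aleph 1 ∧ ∀ α : I, (Set.Iio α).Countable := by
    refine ⟨(Cardinal.aleph 1).ord.ToType, inferInstance, inferInstance,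
      Cardinal.mk_ord_toType _, fun α => ?_⟩
    refine Cardinal.le_aleph0_iff_set_countable.1 (Cardinal.lt_aleph_one_iff.1 ?_)
    have h1 := Cardinal.mk_Iio_lt α (by simp)
    simpa using h1
  have hx : Cardinal.mk I ≤ Cardinal.mk ℝ := by
    rw [hI, Cardinal.mk_real]
    exact Cardinal.aleph_one_le_continuum
  obtain ⟨x⟩ := hx
  have hHP : Cardinal.mk HP ≤ Cardinal.continuum := by
    rw [← Cardinal.mk_complex]
    exact Cardinal.mk_le_of_injective (f := Subtype.val) Subtype.val_injective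
  have hNN : Cardinal.mk NNReal ≤ Cardinal.continuum := by
    rw [← Cardinal.mk_real]
    exact Cardinal.mk_le_of_injective (f := fun y : NNReal => (y : ℝ)) NNReal.coe_injective
  have hIc : Cardinal.mk I ≤ Cardinal.continuum := by
    rw [hI]
    exact Cardinal.aleph_one_le_continuum
  have hPt : Cardinal.mk (Pt I) ≤ Cardinal.continuum := by
    have e : Cardinal.mk (Pt I) = Cardinal.mk HP + Cardinal.mk I * Cardinal.mk NNReal := by
      simp only [Pt, Cardinal.mk_sum, Cardinal.mk_prod, Cardinal.lift_id]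
    rw [e]
    calc Cardinal.mk HP + Cardinal.mk I * Cardinal.mk NNReal
        ≤ Cardinal.continuum + Cardinal.continuum * Cardinal.continuum :=
          add_le_add hHP (mul_le_mul' hIc hNN)
      _ = Cardinal.continuum := by
          rw [Cardinal.continuum_mul_self, Cardinal.continuum_add_self]
  have hseq : Cardinal.mk (ℕ → Pt I) ≤ Cardinal.mk I := by
    have e : Cardinal.mk (ℕ → Pt I) = Cardinal.mk (Pt I) ^ Cardinal.aleph0 := by
      simp only [Cardinal.mk_pi, Cardinal.prod_const, Cardinal.lift_id, Cardinal.mk_nat]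
    rw [e, hI]
    calc Cardinal.mk (Pt I) ^ Cardinal.aleph0 ≤ Cardinal.continuum ^ Cardinal.aleph0 :=
          Cardinal.power_le_power_right hPt
      _ = Cardinal.continuum := Cardinal.continuum_power_aleph0
      _ ≤ Cardinal.aleph 1 := hc
  obtain ⟨i⟩ := hseq
  have hne : Nonempty (ℕ → Pt I) := ⟨fun _ => Sum.inl ⟨Complex.I, by simp⟩⟩
  refine ⟨I, hlin, hwf, x, fun ξ => Set.range (Function.invFun i ξ), ?_, hIio, x.injective, ?_⟩
  · refine Cardinal.aleph0_lt_mk_iff.1 ?_
    rw [hI]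
    exact Cardinal.aleph0_lt_aleph_one
  · intro B hB hne'
    obtain ⟨g, hg⟩ := hB.exists_eq_range hne'
    refine ⟨i g, ?_⟩
    change Set.range (Function.invFun i (i g)) = B
    rw [Function.leftInverse_invFun i.injective g, hg]

/-- Countable subsets are bounded. -/
theorem exists_bound {I : Type} [LinearOrder I] [Uncountable I]
    (hc : ∀ α : I, (Set.Iio α).Countable) {C : Set I} (hC : C.Countable) : ∃ β, ∀ α ∈ C, α < β := by
  by_contra hcon
  push Not at hcon
  have h1 : (Set.univ : Set I) ⊆ ⋃ α ∈ C, Set.Iic α := by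
    intro β _
    obtain ⟨α, hα, hβ⟩ := hcon β
    exact Set.mem_biUnion hα hβ
  have h2 : (⋃ α ∈ C, Set.Iic α).Countable := by
    refine hC.biUnion fun α _ => ?_
    have e : Set.Iic α = Set.Iio α ∪ {α} := by
      ext y
      simp [le_iff_lt_or_eq]
    rw [e]
    exact (hc α).union (Set.countable_singleton α)
  exact Set.not_countable_univ (h2.mono h1)

end Pool.Agent.Lib.MP_7c9e3d_gt
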