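import Pool.Agent.Lib.MP_7c9e3d_gt.RecB
import Pool.Agent.Lib.MP_7c9e3d_gt.Idx
import Pool.Agent.Lib.MP_7c9e3d_gt.FDat

/-!
# The final stage

`FinalData`: what is used about the whole space (`t = stage g univ`).
-/

open Topology

namespace Pool.Agent.Lib.MP_7c9e3d_gt

/-- Countable sets of points have an upper bound for the indices. -/
private theorem fin_bound {I : Type} [LinearOrder I] [Uncountable I]
    (hc : ∀ α : I, (Set.Iio α).Countable) {C : Set (Pt I)} (hC : C.Countable) :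
    ∃ α, C ⊆ MS (Set.Iio α) := by
  have h1 : {β : I | ∃ s, (Sum.inr (β, s) : Pt I) ∈ C}.Countable := by
    have h3 : {β : I | ∃ s, (Sum.inr (β, s) : Pt I) ∈ C} =
        ⋃ p ∈ C, {β | ∃ a : I × NNReal, p = Sum.inr a ∧ a.1 = β} := by
      ext β
      simp only [Set.mem_ofPred_eq, Set.mem_iUnion]
      constructor
      · rintro ⟨s, hs⟩
        exact ⟨_, hs, (β, s), rfl, rfl⟩
      · rintro ⟨p, hp, ⟨β', s⟩, rfl, rfl⟩
        exact ⟨s, hp⟩
    rw [h3]
    refine hC.biUnion fun p _ => ?_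
    refine Set.Subsingleton.countable ?_
    rintro β ⟨a, ha, rfl⟩ β' ⟨a', ha', rfl⟩
    rw [ha] at ha'
    rw [Sum.inr_injective ha']
  obtain ⟨α, hα⟩ := exists_bound hc h1
  refine ⟨α, fun p hp => ?_⟩
  rintro ⟨β, s⟩ rfl
  exact hα β ⟨s, hp⟩

theorem exists_finalData (h : Cardinal.mk (Set ℕ) ≤ Cardinal.aleph 1) :
    ∃ (I : Type) (_ : LinearOrder I) (x : I → ℝ) (t : TopologicalSpace (Pt I)),
      FinalData x t := by
  obtain ⟨I, i1, i2, x, A, hunc, hc, hx, hA⟩ := exists_index h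
  obtain ⟨g, hg⟩ := exists_rec hc hx A
  have hu : IsLowerSet (Set.univ : Set I) := isLowerSet_univ
  have hS : Specs x A g Set.univ := fun α _ => hg α
  have hE : Emb g Set.univ := hS.emb
  have hall : ∀ p : Pt I, p ∈ MS (Set.univ : Set I) := fun p a _ => Set.mem_univ _
  refine ⟨I, i1, x, stage g Set.univ, ?_⟩
  refine ⟨hx, hunc, hc, ?_, ?_, ?_, ?_, ?_, ?_, ?_, ?_⟩
  · exact t2_stage hx hu hS
  · exact continuous_pr hu hS
  · exact inl_emb hu hE
  · intro α
    refine ⟨psi g α, psi_emb hu hE (Set.mem_univ α), fun s => ⟨_, psi_coe g α s⟩, fun w => ?_⟩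
    exact psi_mem_MS (hg α).maps w
  · intro α
    exact isOpen_MS (isLowerSet_Iio α) hu hE
  · intro p
    exact dense_inl hu hS (hall p)
  · intro p ε hε
    exact exists_small hu hS (hall p) hε
  · intro B hB
    rcases B.eq_empty_or_nonempty with rfl | hne
    · obtain ⟨α, -⟩ := exists_bound hc (C := ∅) Set.countable_empty
      refine ⟨α, fun γ _ hγ => ?_⟩
      simp at hγ
    · obtain ⟨ξ, hξ⟩ := hA B hB hne
      obtain ⟨α1, hα1⟩ := fin_bound hc hB
      obtain ⟨α2, hα2⟩ := exists_bound hc (C := {ξ}) (Set.countable_singleton ξ)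
      refine ⟨max α1 α2, fun γ hγ hγ1 s => ?_⟩
      have h1 : B ∈ targets x A γ := by
        refine ⟨ξ, lt_of_lt_of_le (hα2 ξ rfl) ((le_max_right _ _).trans hγ), hξ.symm, ?_, ?_⟩
        · rw [hξ]
          exact hα1.trans (MS_mono (Set.Iio_subset_Iio ((le_max_left _ _).trans hγ)))
        · rw [hξ]
          exact hγ1
      exact mem_closure_of_target hS (Set.mem_univ γ) h1 s

end Pool.Agent.Lib.MP_7c9e3d_gt
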