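import Pool.Agent.Lib.MP_7c9e3d_gt.Rt

/-!
# JOB Psi: the maps `psi g β`

* `psi_sq`: `psi_of_notMem`, `sq_notMem_ray`, `rt_of_sq`.
* `continuousAt_psi`: near `w` (outside the closed ray) `f (psi g β w') = f (g β (rtH w'))`; `w' ↦ rtH w'` is continuous there (`continuousOn_rt`; work with the subtype `{w // w ∉ ray}`, which is open:
  `isClosed_ray.isOpen_compl.isOpenEmbedding_subtypeVal.continuousAt_iff`).
* `isOpen_psi_preimage`: the preimage is `{w | ∃ h : w ∉ ray, rtH w h ∈ g β ⁻¹' V}` (`isOpen_rtH_preimage`).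
* `psi_injective`: points of the ray go to the fibre `β`, the others into `MS (Iio β)`; outside the ray `rtH` is injective as `rt w ^ 2 = w`.
-/

open Topology

namespace Pool.Agent.Lib.MP_7c9e3d_gt

variable {I : Type}

theorem psi_of_mem (g : I → HP → Pt I) (β : I) {w : ℂ} (h : w ∈ ray) :
    psi g β w = Sum.inr (β, ⟨w.re, h.2⟩) := by
  rw [psi, dif_pos h]

theorem psi_of_notMem (g : I → HP → Pt I) (β : I) {w : ℂ} (h : w ∉ ray) :
    psi g β w = g β (rtH w h) := by
  rw [psi, dif_neg h]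

theorem psi_coe (g : I → HP → Pt I) (β : I) (s : NNReal) :
    psi g β ((s : ℝ) : ℂ) = Sum.inr (β, s) := by
  have h : ((s : ℝ) : ℂ) ∈ ray := ⟨Complex.ofReal_im _, by rw [Complex.ofReal_re]; exact s.2⟩
  rw [psi_of_mem g β h]
  rfl

theorem psi_sq (g : I → HP → Pt I) (β : I) (z : HP) : psi g β (z.1 ^ 2) = g β z := by
  rw [psi_of_notMem g β (sq_notMem_ray z.2)]
  congr 1
  exact Subtype.ext (rt_of_sq z.2)

theorem continuousAt_psi {Y : Type*} [TopologicalSpace Y] {g : I → HP → Pt I} {β : I}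
    {f : Pt I → Y} (hf : Continuous fun z : HP => f (g β z)) {w : ℂ} (hw : w ∉ ray) :
    ContinuousAt (fun w => f (psi g β w)) w := by
  have h1 : ContinuousOn (fun w => f (psi g β w)) rayᶜ := by
    rw [continuousOn_iff_continuous_domRestrict]
    have h2 : rayᶜ.domRestrict (fun w => f (psi g β w)) =
        fun x : (rayᶜ : Set ℂ) => f (g β (rtH x.1 x.2)) := by
      funext x
      rw [Set.domRestrict_apply, psi_of_notMem g β x.2]
    rw [h2]
    have h3 : Continuous fun x : (rayᶜ : Set ℂ) => rtH x.1 x.2 :=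
      (continuousOn_iff_continuous_domRestrict.1 continuousOn_rt).subtype_mk _
    exact hf.comp h3
  exact h1.continuousAt (isClosed_ray.isOpen_compl.mem_nhds hw)

theorem isOpen_psi_preimage {g : I → HP → Pt I} {β : I} {V : Set (Pt I)}
    (hV : ∀ s : NNReal, (Sum.inr (β, s) : Pt I) ∉ V) (h : IsOpen (g β ⁻¹' V)) :
    IsOpen (psi g β ⁻¹' V) := by
  have h1 : psi g β ⁻¹' V = {w : ℂ | ∃ h : w ∉ ray, rtH w h ∈ g β ⁻¹' V} := by
    ext w
    rw [Set.mem_preimage, Set.mem_ofPred_eq]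
    by_cases hw : w ∈ ray
    · constructor
      · intro h2
        rw [psi_of_mem g β hw] at h2
        exact absurd h2 (hV _)
      · rintro ⟨h2, -⟩
        exact absurd hw h2
    · rw [psi_of_notMem g β hw]
      exact ⟨fun h2 => ⟨hw, h2⟩, fun ⟨_, h2⟩ => h2⟩
  rw [h1]
  exact isOpen_rtH_preimage h

theorem MS_mono {S T : Set I} (h : S ⊆ T) : MS S ⊆ MS T :=
  fun _ hp a ha => h (hp a ha)

theorem mem_MS_or {S : Set I} {p : Pt I} (h : p ∈ MS S) :
    (∃ z : HP, p = Sum.inl z) ∨ ∃ β ∈ S, ∃ s : NNReal, p = Sum.inr (β, s) := by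
  rcases p with z | ⟨β, s⟩
  · exact Or.inl ⟨z, rfl⟩
  · exact Or.inr ⟨β, inr_mem_MS.1 h, s, rfl⟩

variable [LinearOrder I]

theorem psi_mem_MS {g : I → HP → Pt I} {β : I} (h : ∀ z, g β z ∈ MS (Set.Iio β)) (w : ℂ) :
    psi g β w ∈ MS (Set.Iic β) := by
  by_cases hw : w ∈ ray
  · rw [psi_of_mem g β hw, inr_mem_MS]
    exact le_refl β
  · rw [psi_of_notMem g β hw]
    exact MS_mono Set.Iio_subset_Iic_self (h _)

/-- Only the points of the ray go to the fibre. -/
theorem psi_eq_inr {g : I → HP → Pt I} {β : I} (h : ∀ z, g β z ∈ MS (Set.Iio β)) {w : ℂ}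
    {s : NNReal} (hw : psi g β w = Sum.inr (β, s)) : w = ((s : ℝ) : ℂ) := by
  by_cases hr : w ∈ ray
  · rw [psi_of_mem g β hr] at hw
    have h1 := congrArg Prod.snd (Sum.inr.inj hw)
    have h2 : w.re = (s : ℝ) := congrArg (fun t : NNReal => (t : ℝ)) h1
    apply Complex.ext
    · rw [Complex.ofReal_re]
      exact h2
    · rw [Complex.ofReal_im]
      exact hr.1
  · rw [psi_of_notMem g β hr] at hw
    have h1 := h (rtH w hr)
    rw [hw, inr_mem_MS] at h1
    exact absurd h1 (lt_irrefl β)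

theorem psi_injective {g : I → HP → Pt I} {β : I} (h : ∀ z, g β z ∈ MS (Set.Iio β))
    (hi : Function.Injective (g β)) : Function.Injective (psi g β) := by
  intro w w' hww
  by_cases hw : w ∈ ray
  · have h1 := psi_of_mem g β hw
    have h2 := psi_eq_inr h h1
    rw [hww] at h1
    rw [h2]
    exact (psi_eq_inr h h1).symm
  · by_cases hw' : w' ∈ ray
    · have h1 := psi_of_mem g β hw'
      have h2 := psi_eq_inr h h1
      rw [← hww] at h1
      rw [h2]
      exact psi_eq_inr h h1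
    · rw [psi_of_notMem g β hw, psi_of_notMem g β hw'] at hww
      have h1 : rt w = rt w' := congrArg Subtype.val (hi hww)
      rw [← rt_sq hw, ← rt_sq hw', h1]

end Pool.Agent.Lib.MP_7c9e3d_gt
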