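import Pool.Agent.Lib.MP_7c9e3d_gt.FDat
import Pool.Agent.Lib.MP_7c9e3d_gt.Psi

/-!
# JOB GdA: the diagonal

* `gdelta`: `W n = ⋃ {U ×ˢ U | U open, IsSmall x (1/(n+1)) U}`; the diagonal is the intersection: if `(p, q) ∈ W n` for all `n` then `pr x p = pr x q`, so `p`, `q` are both in the half plane and equal (a point of the
  half plane has positive imaginary part), or `p = inr (γ, s)`, `q = inr (γ, s')` (injectivity of `x`) and `|s - s'| < 1/(n+1)` for all `n`.
-/

open Topology

namespace Pool.Agent.Lib.MP_7c9e3d_gt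

variable {I : Type} [LinearOrder I] {x : I → ℝ}

theorem FinalData.gdelta {t : TopologicalSpace (Pt I)} (D : FinalData x t) :
    @IsGδ (Pt I × Pt I) (@instTopologicalSpaceProd _ _ t t) (Set.diagonal (Pt I)) := by
  letI := t
  have key : Set.diagonal (Pt I)
      = ⋂ n : ℕ, ⋃ U ∈ {U : Set (Pt I) | IsOpen U ∧ IsSmall x (1 / ((n : ℝ) + 1)) U}, U ×ˢ U := by
    apply Set.Subset.antisymm
    · rintro ⟨p, q⟩ hpq
      have hpq' : p = q := hpq
      subst hpq'
      refine Set.mem_iInter.2 fun n => ?_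
      obtain ⟨U, hU, hp, hs⟩ := D.small p (1 / ((n : ℝ) + 1)) (by positivity)
      exact Set.mem_biUnion (show U ∈ {U : Set (Pt I) | IsOpen U ∧ IsSmall x (1 / ((n : ℝ) + 1)) U} from ⟨hU, hs⟩)
        ⟨hp, hp⟩
    · rintro ⟨p, q⟩ hpq
      have hsm : ∀ n : ℕ, ∃ U : Set (Pt I), IsSmall x (1 / ((n : ℝ) + 1)) U ∧ p ∈ U ∧ q ∈ U := by
        intro n
        have h1 := Set.mem_iInter.1 hpq n
        obtain ⟨U, hU, hpU⟩ := Set.mem_iUnion₂.1 h1
        exact ⟨U, hU.2, hpU.1, hpU.2⟩
      have h0 : ∀ a : ℝ, 0 ≤ a → (∀ n : ℕ, a < 1 / ((n : ℝ) + 1)) → a = 0 := by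
        intro a ha h
        by_contra hne
        have hpos : 0 < a := lt_of_le_of_ne ha (Ne.symm hne)
        obtain ⟨n, hn⟩ := exists_nat_one_div_lt hpos
        exact absurd (h n) (not_lt.2 hn.le)
      have hpr : pr x p = pr x q := by
        have h1 : ‖pr x p - pr x q‖ = 0 := by
          refine h0 _ (norm_nonneg _) fun n => ?_
          obtain ⟨U, hs, hp, hq⟩ := hsm n
          exact hs.proj p hp q hq
        exact sub_eq_zero.1 (norm_eq_zero.1 h1)
      show p = q
      rcases p with z | ⟨a, s⟩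
      · rcases q with z' | ⟨b, s'⟩
        · have h1 : z.1 = z'.1 := hpr
          rw [Subtype.ext h1]
        · exfalso
          have h1 : z.1 = (x b : ℂ) := hpr
          have h2 := z.2
          rw [h1, Complex.ofReal_im] at h2
          exact lt_irrefl _ h2
      · rcases q with z' | ⟨b, s'⟩
        · exfalso
          have h1 : (x a : ℂ) = z'.1 := hpr
          have h2 := z'.2
          rw [← h1, Complex.ofReal_im] at h2
          exact lt_irrefl _ h2
        · have h1 : (x a : ℂ) = (x b : ℂ) := hpr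
          have h2 : a = b := D.inj (Complex.ofReal_inj.1 h1)
          subst h2
          have h3 : |(s : ℝ) - s'| = 0 := by
            refine h0 _ (abs_nonneg _) fun n => ?_
            obtain ⟨U, hs, hp, hq⟩ := hsm n
            exact hs.fib a s s' hp hq
          have h4 : (s : ℝ) = s' := sub_eq_zero.1 (abs_eq_zero.1 h3)
          rw [NNReal.coe_injective h4]
  rw [key]
  refine IsGδ.iInter_of_isOpen fun n => ?_
  refine isOpen_biUnion fun U hU => ?_
  exact hU.1.prod hU.1

end Pool.Agent.Lib.MP_7c9e3d_gt
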