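import Pool.Agent.Lib.MP_7c9e3d_gt.FDat
import Pool.Agent.Lib.MP_7c9e3d_gt.Psi
import Pool.Agent.Lib.MP_7c9e3d_gt.Idx

/-!
# The space is not metrizable
-/

open Topology

namespace Pool.Agent.Lib.MP_7c9e3d_gt

variable {I : Type} [LinearOrder I] {x : I → ℝ}

theorem FinalData.not_metrizable {t : TopologicalSpace (Pt I)} (D : FinalData x t) :
    ¬ @TopologicalSpace.MetrizableSpace (Pt I) t := by
  let := t
  intro hm
  have := D.unc
  have hsep : TopologicalSpace.SeparableSpace (Pt I) := by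
    obtain ⟨C, hC, hd⟩ := TopologicalSpace.exists_countable_dense HP
    refine ⟨⟨Sum.inl '' C, hC.image _, ?_⟩⟩
    have h1 : Dense (Set.range (Sum.inl : HP → Pt I)) := D.dense
    have h2 : DenseRange (Sum.inl : HP → Pt I) := h1
    exact h2.dense_image D.inl_emb.continuous hd
  let := TopologicalSpace.metrizableSpaceMetric (Pt I)
  have hsc : SecondCountableTopology (Pt I) := UniformSpace.secondCountable_of_separable (Pt I)
  obtain ⟨T, hT, hTc⟩ := TopologicalSpace.isOpen_iUnion_countable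
    (fun α : I => (MS (Set.Iio α) : Set (Pt I))) D.open_MS
  obtain ⟨β, hβ⟩ := exists_bound D.count hT
  have h1 : (Sum.inr (β, 0) : Pt I) ∈ ⋃ α : I, (MS (Set.Iio α) : Set (Pt I)) := by
    obtain ⟨γ, hγ⟩ := exists_bound D.count (Set.countable_singleton β)
    exact Set.mem_iUnion.2 ⟨γ, inr_mem_MS.2 (hγ β rfl)⟩
  rw [← hTc, Set.mem_iUnion₂] at h1
  obtain ⟨α, hα, h2⟩ := h1
  have h3 : β < α := inr_mem_MS.1 h2
  exact absurd h3 (lt_asymm (hβ α hα))

end Pool.Agent.Lib.MP_7c9e3d_gt
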