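import Pool.Agent.Lib.MP_7c9e3d_gt.FDat
import Pool.Agent.Lib.MP_7c9e3d_gt.Psi

/-!
# The charts
-/

open Topology

namespace Pool.Agent.Lib.MP_7c9e3d_gt

variable {I : Type} [LinearOrder I] {x : I → ℝ}

private noncomputable def gdcE : ℂ ≃ₜ EuclideanSpace ℝ (Fin 2) :=
  Complex.orthonormalBasisOneI.repr.toHomeomorph

private theorem gdc_emb {X Y : Type*} [TopologicalSpace X] [TopologicalSpace Y]
    [Nonempty X] {f : X → Y} (hf : IsOpenEmbedding f)
    {j : X → ℂ} (hj : IsOpenEmbedding j) (a : X) :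
    ∃ e : OpenPartialHomeomorph Y (EuclideanSpace ℝ (Fin 2)), f a ∈ e.source := by
  have hj2 : IsOpenEmbedding (fun u => gdcE (j u)) := gdcE.isOpenEmbedding.comp hj
  refine ⟨(hf.toOpenPartialHomeomorph f).symm.trans (hj2.toOpenPartialHomeomorph _), ?_⟩
  simp

theorem FinalData.charted {t : TopologicalSpace (Pt I)} (D : FinalData x t) :
    Nonempty (@ChartedSpace (EuclideanSpace ℝ (Fin 2)) _ (Pt I) t) := by
  let := t
  have hHP : IsOpenEmbedding (fun z : HP => z.1) := by
    have h : IsOpen {z : ℂ | 0 < z.im} := isOpen_lt continuous_const Complex.continuous_im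
    exact h.isOpenEmbedding_subtypeVal
  have h : ∀ p : Pt I, ∃ e : OpenPartialHomeomorph (Pt I) (EuclideanSpace ℝ (Fin 2)),
      p ∈ e.source := by
    intro p
    rcases p with z | ⟨α, s⟩
    · have : Nonempty HP := ⟨z⟩
      exact gdc_emb D.inl_emb hHP z
    · obtain ⟨e, he, he1, -⟩ := D.chart α
      obtain ⟨w, hw⟩ := he1 s
      rw [← hw]
      exact gdc_emb he IsOpenEmbedding.id w
  choose e he using h
  exact ⟨{
    atlas := Set.range e
    chartAt := e
    mem_chart_source := he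
    chart_mem_atlas := fun p => ⟨p, rfl⟩ }⟩

end Pool.Agent.Lib.MP_7c9e3d_gt
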