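import Pool.Agent.Lib.MP_7c9e3d_gt.Tfa

/-!
# JOB Tfb: the space is completely normal

* `cover`: let `Disjoint s (closure r)`. Choose a countable `B ⊆ r` with `pr x '' r ⊆ closure (pr x '' B)` (separability of subsets of `ℂ`: `TopologicalSpace.exists_countable_dense_subset..`/`TopologicalSpace.IsSeparable`, e.g. a countable
  dense subset of `pr x '' r`, lifted), `α` from `catches B`. For `γ ≥ α` and `inr (γ, s') ∈ s`: `inr (γ, s') ∉ closure B`, so `x γ ∉ closure (pr x '' B) ⊇ closure (pr x '' r)`. So the points of `s` outside `MS (Iio α)` are in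
  `pr x ⁻¹' O`, `O = (closure (pr x '' r))ᶜ`; `O` is a countable union of open discs with closures in `O` (Lindelöf), whose preimages have closures (contained in the preimages of the closures) disjoint from `r`.
  The points `p` of `s ∩ MS (Iio α)` have open neighbourhoods `U` with `closure U` disjoint from `r` (regularity, `p ∉ closure r`), countably many suffice (`lindelof`).
  Together `HasSeparatingCover s r`.
* `t5`: `CompletelyNormalSpace` by `Set.hasSeparatingCovers_iff_separatedNhds`.
-/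

open Topology

namespace Pool.Agent.Lib.MP_7c9e3d_gt

variable {I : Type} [LinearOrder I] {x : I → ℝ}

private theorem tfb_lind {X : Type*} [TopologicalSpace X] {s r : Set X} (hs : IsLindelof s)
    (h : ∀ p ∈ s, ∃ U, IsOpen U ∧ p ∈ U ∧ Disjoint (closure U) r) : HasSeparatingCover s r := by
  rcases s.eq_empty_or_nonempty with rfl | ⟨p0, hp0⟩
  · exact Set.hasSeparatingCover_empty_left r
  have : Nonempty X := ⟨p0⟩
  have h1 : ∀ a : X, ∃ n : Set X, IsOpen n ∧ Disjoint (closure n) r ∧ (a ∈ s → a ∈ n) := by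
    intro a
    by_cases ha : a ∈ s
    · obtain ⟨U, h1, h2, h3⟩ := h a ha
      exact ⟨U, h1, h3, fun _ => h2⟩
    · exact ⟨∅, isOpen_empty, by simp, fun h => absurd h ha⟩
  choose u u_open u_dis u_mem using h1
  obtain ⟨f, hf⟩ := hs.indexed_countable_subcover u u_open
    (fun a ha => Set.mem_iUnion.2 ⟨a, u_mem a ha⟩)
  exact ⟨u ∘ f, hf, fun n => ⟨u_open (f n), u_dis (f n)⟩⟩

private theorem tfb_union {X : Type*} [TopologicalSpace X] {s s' r : Set X}
    (h : HasSeparatingCover s r) (h' : HasSeparatingCover s' r) :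
    HasSeparatingCover (s ∪ s') r := by
  obtain ⟨u, hu, hu'⟩ := h
  obtain ⟨v, hv, hv'⟩ := h'
  refine ⟨fun n => if n % 2 = 0 then u (n / 2) else v (n / 2), ?_, ?_⟩
  · rintro a (ha | ha)
    · obtain ⟨n, hn⟩ := Set.mem_iUnion.1 (hu ha)
      refine Set.mem_iUnion.2 ⟨2 * n, ?_⟩
      rw [if_pos (by omega), show 2 * n / 2 = n by omega]
      exact hn
    · obtain ⟨n, hn⟩ := Set.mem_iUnion.1 (hv ha)
      refine Set.mem_iUnion.2 ⟨2 * n + 1, ?_⟩
      rw [if_neg (by omega), show (2 * n + 1) / 2 = n by omega]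
      exact hn
  · intro n
    by_cases hn : n % 2 = 0
    · simp only [if_pos hn]
      exact hu' _
    · simp only [if_neg hn]
      exact hv' _

private theorem tfb_compl (c : Set ℂ) : HasSeparatingCover (closure c)ᶜ (closure c) := by
  refine tfb_lind (HereditarilyLindelofSpace.isLindelof _) fun p hp => ?_
  obtain ⟨n, hn, hc, hs⟩ := exists_mem_nhds_isClosed_subset
    ((isClosed_closure (s := c)).isOpen_compl.mem_nhds hp)
  refine ⟨interior n, isOpen_interior, mem_interior_iff_mem_nhds.2 hn, ?_⟩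
  refine Set.disjoint_left.2 fun a ha hac => ?_
  exact hs ((IsClosed.closure_subset_iff hc).2 interior_subset ha) hac

omit [LinearOrder I] in
private theorem tfb_dense (x : I → ℝ) (r : Set (Pt I)) : ∃ B : Set (Pt I), B.Countable ∧ B ⊆ r ∧
    closure (pr x '' r) ⊆ closure (pr x '' B) := by
  obtain ⟨c, hc, hcc, hd⟩ := (TopologicalSpace.IsSeparable.of_separableSpace
    (pr x '' r)).exists_countable_dense_subset
  have h1 : ∀ z ∈ c, ∃ p, p ∈ r ∧ pr x p = z := fun z hz => hc hz
  have : Nonempty (Pt I) := ⟨Sum.inl ⟨Complex.I, by simp⟩⟩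
  choose! f hf using h1
  refine ⟨f '' c, hcc.image f, ?_, ?_⟩
  · rintro _ ⟨z, hz, rfl⟩
    exact (hf z hz).1
  · refine (closure_minimal hd isClosed_closure).trans (closure_mono ?_)
    intro z hz
    exact ⟨f z, ⟨z, hz, rfl⟩, (hf z hz).2⟩

theorem FinalData.cover {t : TopologicalSpace (Pt I)} (D : FinalData x t) {s r : Set (Pt I)}
    (h : Disjoint s (@closure _ t r)) : @HasSeparatingCover (Pt I) t s r := by
  let := t
  have := D.t2
  have := D.locallyCompact
  obtain ⟨B, hB, hBr, hcl⟩ := tfb_dense x r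
  obtain ⟨α, hα⟩ := D.catches B hB
  have h1 : HasSeparatingCover (s ∩ MS (Set.Iio α)) r := by
    refine tfb_lind (D.lindelof s α) fun p hp => ?_
    have hp' : p ∈ (closure r)ᶜ := fun h' => Set.disjoint_left.1 h hp.1 h'
    obtain ⟨n, hn, hc, hs⟩ := exists_mem_nhds_isClosed_subset
      (isClosed_closure.isOpen_compl.mem_nhds hp')
    refine ⟨interior n, isOpen_interior, mem_interior_iff_mem_nhds.2 hn, ?_⟩
    refine Set.disjoint_left.2 fun a ha har => ?_
    exact hs ((IsClosed.closure_subset_iff hc).2 interior_subset ha) (subset_closure har)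
  have h2 : HasSeparatingCover (pr x ⁻¹' (closure (pr x '' r))ᶜ) r := by
    obtain ⟨u, hu, hu'⟩ := tfb_compl (pr x '' r)
    refine ⟨fun n => pr x ⁻¹' (u n), ?_, fun n => ⟨(hu' n).1.preimage D.cont, ?_⟩⟩
    · intro p hp
      obtain ⟨n, hn⟩ := Set.mem_iUnion.1 (hu hp)
      exact Set.mem_iUnion.2 ⟨n, hn⟩
    · refine Set.disjoint_left.2 fun a ha har => ?_
      have h3 : a ∈ pr x ⁻¹' (closure (u n)) := D.cont.closure_preimage_subset (u n) ha
      exact Set.disjoint_left.1 (hu' n).2 h3 (subset_closure ⟨a, har, rfl⟩)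
  refine (tfb_union h1 h2).mono ?_ subset_rfl
  intro p hp
  by_cases hp1 : p ∈ MS (Set.Iio α)
  · exact Or.inl ⟨hp, hp1⟩
  · right
    intro hp2
    rcases p with z | ⟨γ, s'⟩
    · exact hp1 (inl_mem_MS z)
    · have hγ : α ≤ γ := by
        by_contra hlt
        exact hp1 (inr_mem_MS.2 (not_le.1 hlt))
      have h3 := hα γ hγ (hcl hp2) s'
      exact Set.disjoint_left.1 h hp (closure_mono hBr h3)

theorem FinalData.t5 {t : TopologicalSpace (Pt I)} (D : FinalData x t) : @T5Space (Pt I) t := by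
  let := t
  have := D.t2
  have h1 : CompletelyNormalSpace (Pt I) :=
    ⟨fun s r h h' => separatedNhds_iff_disjoint.1 (hasSeparatingCovers_iff_separatedNhds.1
      ⟨D.cover h', D.cover h.symm⟩)⟩
  exact {}

end Pool.Agent.Lib.MP_7c9e3d_gt
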