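import Pool.Agent.Lib.MP_7c9e3d_gt.Fin
import Pool.Agent.Lib.MP_7c9e3d_gt.Tfb
import Pool.Agent.Lib.MP_7c9e3d_gt.GdA
import Pool.Agent.Lib.MP_7c9e3d_gt.GdB
import Pool.Agent.Lib.MP_7c9e3d_gt.GdC

/-!
# The continuum hypothesis implies the negation of the frozen statement
-/

open Topology

namespace Pool.Agent.Lib.MP_7c9e3d_gt

theorem main_CH (h : Cardinal.mk (Set ℕ) ≤ Cardinal.aleph 1) :
    ¬ ∀ (n : ℕ) (X : Type) [TopologicalSpace X] [T2Space X]
      [ChartedSpace (EuclideanSpace ℝ (Fin n)) X],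
      T5Space X → IsGδ (Set.diagonal X) → TopologicalSpace.MetrizableSpace X := by
  obtain ⟨I, _, x, t, D⟩ := exists_finalData h
  intro hall
  let := t
  have : T2Space (Pt I) := D.t2
  obtain ⟨c⟩ := D.charted
  let := c
  exact D.not_metrizable (hall 2 (Pt I) D.t5 D.gdelta)

end Pool.Agent.Lib.MP_7c9e3d_gt
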