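import Pool.Agent.Lib.MP_7c9e3d_gt.Ball

/-!
# JOB Phi: glueing homeomorphisms supported in a locally finite family of discs

Let `K k = e k '' closedBall 0 1` (closed: compact in a Hausdorff space). `F x = e k (φ k w)` if `x = e k w`, `‖w‖ ≤ 1` (`k` unique by disjointness, `w` unique by injectivity), `F x = x` if `x ∉ ⋃ K k`.
General lemma: for every family `φ` with `φ k w = w` for `‖w‖ ≥ 1`, `F` is continuous: the sets `O k = e k '' univ ∖ ⋃_{j ≠ k} K j` (open, as the union of a locally finite family of closed sets is closed,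
`LocallyFinite.isClosed_iUnion` for the family over `j ≠ k`) and `O = (⋃ K k)ᶜ` are open and cover `X`; on `O k` one has `F (e k w) = e k (φ k w)` for ALL `w` with `e k w ∈ O k` (for `‖w‖ > 1` both are `e k w`), continuous
because `e k` is an open embedding; on `O` `F` is the identity. The same construction for `(φ k).symm` gives the inverse (`F` maps `K k` into `K k`, `norm_lt_of_homeo`).
-/

open Topology

namespace Pool.Agent.Lib.MP_7c9e3d_gt

section

variable {X : Type*} [TopologicalSpace X]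

open Classical in
/-- the glued map -/
private noncomputable def phiF (e : ℕ → ℂ → X) (φ : ℕ → ℂ ≃ₜ ℂ) (x : X) : X :=
  if h : ∃ kw : ℕ × ℂ, ‖kw.2‖ ≤ 1 ∧ e kw.1 kw.2 = x then
    e h.choose.1 (φ h.choose.1 h.choose.2) else x

private theorem phiF_in (e : ℕ → ℂ → X) (he : ∀ k, IsOpenEmbedding (e k)) (φ : ℕ → ℂ ≃ₜ ℂ)
    (hdisj : ∀ j k w w', ‖w‖ ≤ 1 → ‖w'‖ ≤ 1 → e j w = e k w' → j = k) (k : ℕ) (w : ℂ)
    (hw : ‖w‖ ≤ 1) : phiF e φ (e k w) = e k (φ k w) := by
  have h : ∃ kw : ℕ × ℂ, ‖kw.2‖ ≤ 1 ∧ e kw.1 kw.2 = e k w := ⟨(k, w), hw, rfl⟩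
  unfold phiF
  rw [dif_pos h]
  have h1 := h.choose_spec.1
  have h2 := h.choose_spec.2
  have h3 : h.choose.1 = k := hdisj _ _ _ _ h1 hw h2
  generalize h.choose = c at h2 h3 ⊢
  obtain ⟨j, w'⟩ := c
  have h3' : j = k := h3
  subst h3'
  have h4 : w' = w := (he j).injective h2
  subst h4
  rfl

omit [TopologicalSpace X] in
private theorem phiF_out (e : ℕ → ℂ → X) (φ : ℕ → ℂ ≃ₜ ℂ) (p : X)
    (hp : ∀ k w, ‖w‖ ≤ 1 → e k w ≠ p) : phiF e φ p = p := by
  unfold phiF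
  rw [dif_neg]
  rintro ⟨kw, h1, h2⟩
  exact hp _ _ h1 h2

private theorem phiF_cont [T2Space X] (e : ℕ → ℂ → X) (he : ∀ k, IsOpenEmbedding (e k))
    (φ : ℕ → ℂ ≃ₜ ℂ) (hφ : ∀ k w, 1 ≤ ‖w‖ → φ k w = w)
    (hdisj : ∀ j k w w', ‖w‖ ≤ 1 → ‖w'‖ ≤ 1 → e j w = e k w' → j = k)
    (hfin : LocallyFinite fun k => e k '' Metric.closedBall 0 1) : Continuous (phiF e φ) := by
  have hK : ∀ k, IsClosed (e k '' Metric.closedBall 0 1) := fun k =>
    ((isCompact_closedBall (0 : ℂ) 1).image (he k).continuous).isClosed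
  rw [continuous_iff_continuousAt]
  intro x
  by_cases hx : ∃ k w, ‖w‖ ≤ 1 ∧ e k w = x
  · obtain ⟨k, w, hw, rfl⟩ := hx
    have hC : IsClosed (⋃ j : {j : ℕ // j ≠ k}, e j '' Metric.closedBall 0 1) :=
      (hfin.comp_injective Subtype.val_injective).isClosed_iUnion fun j => hK j
    have hO : IsOpen {w' : ℂ | e k w' ∉ ⋃ j : {j : ℕ // j ≠ k}, e j '' Metric.closedBall 0 1} :=
      hC.isOpen_compl.preimage (he k).continuous
    have hmem : w ∈ {w' : ℂ | e k w' ∉ ⋃ j : {j : ℕ // j ≠ k}, e j '' Metric.closedBall 0 1} := by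
      intro hcon
      obtain ⟨j, w', hw', hjw⟩ := Set.mem_iUnion.1 hcon
      rw [mem_closedBall_zero_iff] at hw'
      exact j.2 (hdisj _ _ _ _ hw' hw hjw)
    rw [← (he k).continuousAt_iff]
    have hev : (phiF e φ ∘ e k) =ᶠ[𝓝 w] (e k ∘ φ k) := by
      filter_upwards [hO.mem_nhds hmem] with w' hw'
      show phiF e φ (e k w') = e k (φ k w')
      by_cases hw1 : ‖w'‖ ≤ 1
      · exact phiF_in e he φ hdisj k w' hw1
      · rw [hφ k w' (not_le.1 hw1).le]
        refine phiF_out e φ _ ?_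
        intro j w'' hw'' hjw
        by_cases hjk : j = k
        · subst hjk
          have h4 : w'' = w' := (he j).injective hjw
          subst h4
          exact hw1 hw''
        · exact hw' (Set.mem_iUnion.2 ⟨⟨j, hjk⟩, w'', mem_closedBall_zero_iff.2 hw'', hjw⟩)
    exact (((he k).continuous.comp (φ k).continuous).continuousAt).congr hev.symm
  · have hC : IsClosed (⋃ j : ℕ, e j '' Metric.closedBall 0 1) := hfin.isClosed_iUnion hK
    have hx' : x ∈ (⋃ j : ℕ, e j '' Metric.closedBall 0 1)ᶜ := by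
      intro hcon
      obtain ⟨j, w', hw', hjw⟩ := Set.mem_iUnion.1 hcon
      rw [mem_closedBall_zero_iff] at hw'
      exact hx ⟨j, w', hw', hjw⟩
    have hev : phiF e φ =ᶠ[𝓝 x] id := by
      filter_upwards [hC.isOpen_compl.mem_nhds hx'] with y hy
      refine phiF_out e φ y ?_
      intro j w' hw' hjw
      exact hy (Set.mem_iUnion.2 ⟨j, w', mem_closedBall_zero_iff.2 hw', hjw⟩)
    exact continuousAt_id.congr hev.symm

private theorem phiF_inv (e : ℕ → ℂ → X) (he : ∀ k, IsOpenEmbedding (e k))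
    (φ ψ : ℕ → ℂ ≃ₜ ℂ) (hφ : ∀ k w, 1 ≤ ‖w‖ → φ k w = w) (hψ : ∀ k w, ψ k (φ k w) = w)
    (hdisj : ∀ j k w w', ‖w‖ ≤ 1 → ‖w'‖ ≤ 1 → e j w = e k w' → j = k) (x : X) :
    phiF e ψ (phiF e φ x) = x := by
  by_cases hx : ∃ k w, ‖w‖ ≤ 1 ∧ e k w = x
  · obtain ⟨k, w, hw, rfl⟩ := hx
    have h1 : ‖φ k w‖ ≤ 1 := by
      rcases hw.lt_or_eq with h | h
      · exact (norm_lt_of_homeo (hφ k) h).le
      · rw [hφ k w h.ge]
        exact hw
    rw [phiF_in e he φ hdisj k w hw, phiF_in e he ψ hdisj k _ h1, hψ]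
  · have hout : ∀ k w, ‖w‖ ≤ 1 → e k w ≠ x := fun k w hw hkw => hx ⟨k, w, hw, hkw⟩
    rw [phiF_out e φ x hout, phiF_out e ψ x hout]

end

theorem exists_glue {X : Type*} [TopologicalSpace X] [T2Space X] (e : ℕ → ℂ → X)
    (he : ∀ k, IsOpenEmbedding (e k)) (φ : ℕ → ℂ ≃ₜ ℂ) (hφ : ∀ k w, 1 ≤ ‖w‖ → φ k w = w)
    (hdisj : ∀ j k w w', ‖w‖ ≤ 1 → ‖w'‖ ≤ 1 → e j w = e k w' → j = k)
    (hfin : LocallyFinite fun k => e k '' Metric.closedBall 0 1) :
    ∃ F : X ≃ₜ X, (∀ k w, ‖w‖ ≤ 1 → F (e k w) = e k (φ k w)) ∧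
      ∀ p, (∀ k w, ‖w‖ ≤ 1 → e k w ≠ p) → F p = p := by
  have hφ' : ∀ k w, 1 ≤ ‖w‖ → (φ k).symm w = w := fun k w hw =>
    (φ k).symm_apply_eq.2 (hφ k w hw).symm
  refine ⟨{ toFun := phiF e φ
            invFun := phiF e fun k => (φ k).symm
            left_inv := fun x => phiF_inv e he φ (fun k => (φ k).symm) hφ
              (fun k w => (φ k).symm_apply_apply w) hdisj x
            right_inv := fun x => phiF_inv e he (fun k => (φ k).symm) φ hφ'
              (fun k w => (φ k).apply_symm_apply w) hdisj x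
            continuous_toFun := phiF_cont e he φ hφ hdisj hfin
            continuous_invFun := phiF_cont e he (fun k => (φ k).symm) hφ' hdisj hfin }, ?_, ?_⟩
  · intro k w hw
    exact phiF_in e he φ hdisj k w hw
  · intro p hp
    exact phiF_out e φ p hp

end Pool.Agent.Lib.MP_7c9e3d_gt
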