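import Pool.Agent.Lib.MP_7c9e3d_gt.Cht

/-!
# JOB Pick: the sequence of small discs near `x0`

`StepData` collects what is used about the previous stage (`t` = its topology, `M` = its set of points).
* `pick`: `x0 ∈ closure (pr x '' a)` gives `p ∈ a` with `‖pr x p - x0‖ < ρ`; `p ∈ M`, so `d = ‖pr x p - x0‖ > 0`. `U = {y | d / 2 < ‖pr x y - x0‖ < ρ}` is open, `p ∈ U`; take the chart `e` of `chart p U ε`. `e '' ball 0 (1/4)` is open and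
  contains `p ∈ M`, so it meets `range inl` (`dense`): `e q = inl b`, `‖q‖ < 1/4`. `ρ' = min (d / 2) (b.im) / 2`.
* `exists_seq`: choose by recursion on `k` (`ρ 0 = r₀`); e.g. first `choose` functions of `(k, ρ)` with `0 < ρ`, then `Nat.rec` on `{ρ : ℝ // 0 < ρ}`.
* `exists_discs`: apply `exists_seq` with `R k ρ d ρ'`: `d = (e, q, b)` as in `pick` for `a k`, `ρ`, `ε = 1/(k+1)`, and `ρ' ≤ 1/((k+2)(1+|u (k+1)|))`; `ρ 0 = 1/(1+|u 0|)`.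
-/

open Topology

namespace Pool.Agent.Lib.MP_7c9e3d_gt

variable {I : Type}

/-- The properties of the previous stage. -/
structure StepData (x : I → ℝ) (x0 : ℝ) (M : Set (Pt I)) (t : TopologicalSpace (Pt I)) : Prop where
  t2 : @T2Space _ t
  cont : @Continuous _ _ t _ (pr x)
  inl_emb : @IsOpenEmbedding HP (Pt I) _ t Sum.inl
  inl_mem : ∀ z : HP, (Sum.inl z : Pt I) ∈ M
  compl_open : IsOpen[t] Mᶜ
  ne : ∀ p ∈ M, pr x p ≠ x0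
  dense : ∀ p ∈ M, p ∈ @closure _ t (Set.range (Sum.inl : HP → Pt I))
  chart : ∀ p ∈ M, ∀ U, IsOpen[t] U → p ∈ U → ∀ ε : ℝ, 0 < ε → ∃ e : ℂ → Pt I, IsChart x M t p U ε e

/-- A disc `e '' closedBall 0 1` between the circles of radius `ρ'` and `ρ` around `x0`, with centre in
`a`, and a point `e q = inl b` near the centre. -/
structure IsDisc (x : I → ℝ) (x0 : ℝ) (M : Set (Pt I)) (t : TopologicalSpace (Pt I))
    (a : Set (Pt I)) (ρ ρ' ε : ℝ) (e : ℂ → Pt I) (q : ℂ) (b : HP) : Prop where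
  emb : @IsOpenEmbedding ℂ (Pt I) _ t e
  center : e 0 ∈ a
  mem : ∀ w, e w ∈ M
  norm_q : ‖q‖ < 1 / 4
  eq_b : e q = Sum.inl b
  lt_im : ρ' < b.1.im
  annulus : ∀ w, ‖w‖ ≤ 1 → ρ' < ‖pr x (e w) - x0‖ ∧ ‖pr x (e w) - x0‖ < ρ
  small : ∀ (γ : I) (s s' : NNReal) (w w' : ℂ), ‖w‖ ≤ 1 → ‖w'‖ ≤ 1 →
    e w = Sum.inr (γ, s) → e w' = Sum.inr (γ, s') → |(s : ℝ) - s'| < ε

variable {x : I → ℝ} {x0 : ℝ} {M : Set (Pt I)} {t : TopologicalSpace (Pt I)}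

theorem IsDisc.mono {a : Set (Pt I)} {ρ ρ' ρ'' ε : ℝ} {e : ℂ → Pt I} {q : ℂ} {b : HP}
    (h : IsDisc x x0 M t a ρ ρ' ε e q b) (hr : ρ'' ≤ ρ') : IsDisc x x0 M t a ρ ρ'' ε e q b :=
  ⟨h.emb, h.center, h.mem, h.norm_q, h.eq_b, hr.trans_lt h.lt_im,
    fun w hw => ⟨hr.trans_lt (h.annulus w hw).1, (h.annulus w hw).2⟩, h.small⟩

theorem pick (D : StepData x x0 M t) {a : Set (Pt I)} (ha : a ⊆ M)
    (ha' : (x0 : ℂ) ∈ closure (pr x '' a)) {ρ ε : ℝ} (hρ : 0 < ρ) (hε : 0 < ε) :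
    ∃ (ρ' : ℝ) (e : ℂ → Pt I) (q : ℂ) (b : HP), 0 < ρ' ∧ IsDisc x x0 M t a ρ ρ' ε e q b := by
  obtain ⟨y, ⟨p, hp, rfl⟩, hy⟩ := Metric.mem_closure_iff.1 ha' ρ hρ
  have hy' : ‖pr x p - x0‖ < ρ := by
    rw [dist_comm, dist_eq_norm] at hy
    exact hy
  have hd : 0 < ‖pr x p - x0‖ := norm_pos_iff.2 (sub_ne_zero.2 (D.ne p (ha hp)))
  have hU : IsOpen[t] {y | ‖pr x p - x0‖ / 2 < ‖pr x y - x0‖ ∧ ‖pr x y - x0‖ < ρ} := by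
    letI := t
    have hc : Continuous fun y => ‖pr x y - x0‖ := (D.cont.sub continuous_const).norm
    exact (isOpen_lt continuous_const hc).inter (isOpen_lt hc continuous_const)
  obtain ⟨e, he⟩ := D.chart p (ha hp) _ hU ⟨by linarith, hy'⟩ ε hε
  have hO : IsOpen[t] (e '' Metric.ball 0 (1 / 4)) := by
    letI := t
    exact he.emb.isOpenMap _ Metric.isOpen_ball
  have hpO : p ∈ e '' Metric.ball 0 (1 / 4) := ⟨0, by simp, he.center⟩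
  obtain ⟨z, ⟨q, hq, rfl⟩, b, hb⟩ := (@mem_closure_iff _ t _ _).1 (D.dense p (ha hp)) _ hO hpO
  have hb0 : 0 < b.1.im := b.2
  refine ⟨min (‖pr x p - x0‖ / 2) b.1.im / 2, e, q, b,
    half_pos (lt_min (half_pos hd) hb0), he.emb, ?_, he.mem, ?_, hb.symm, ?_, fun w hw => ?_,
    he.small⟩
  · rw [he.center]
    exact hp
  · simpa using hq
  · have := min_le_right (‖pr x p - x0‖ / 2) b.1.im
    linarith
  · have h1 := he.sub w hw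
    have h2 := min_le_left (‖pr x p - x0‖ / 2) b.1.im
    exact ⟨by linarith [h1.1], h1.2⟩

theorem exists_seq {D : Type*} (R : ℕ → ℝ → D → ℝ → Prop)
    (h : ∀ k (ρ : ℝ), 0 < ρ → ∃ d ρ', 0 < ρ' ∧ R k ρ d ρ') {r₀ : ℝ} (hr : 0 < r₀) :
    ∃ (d : ℕ → D) (ρ : ℕ → ℝ), ρ 0 = r₀ ∧ (∀ k, 0 < ρ k) ∧ ∀ k, R k (ρ k) (d k) (ρ (k + 1)) := by
  choose d' ρ' h1 h2 using h
  let r : ℕ → {ρ : ℝ // 0 < ρ} := fun n =>
    Nat.rec ⟨r₀, hr⟩ (fun k s => ⟨ρ' k s.1 s.2, h1 k s.1 s.2⟩) n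
  exact ⟨fun k => d' k (r k).1 (r k).2, fun k => (r k).1, rfl, fun k => (r k).2,
    fun k => h2 k (r k).1 (r k).2⟩

theorem exists_discs (D : StepData x x0 M t) (a : ℕ → Set (Pt I)) (ha : ∀ k, a k ⊆ M)
    (ha' : ∀ k, (x0 : ℂ) ∈ closure (pr x '' a k)) (u : ℕ → ℝ) :
    ∃ (ρ : ℕ → ℝ) (e : ℕ → ℂ → Pt I) (q : ℕ → ℂ) (b : ℕ → HP), (∀ k, 0 < ρ k) ∧
      (∀ k : ℕ, ρ k ≤ 1 / ((k + 1 : ℝ) * (1 + |u k|))) ∧
      ∀ k : ℕ, IsDisc x x0 M t (a k) (ρ k) (ρ (k + 1)) (1 / (k + 1 : ℝ)) (e k) (q k) (b k) := by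
  have key : ∀ (k : ℕ) (ρ : ℝ), 0 < ρ → ∃ (d : (ℂ → Pt I) × ℂ × HP) (ρ' : ℝ), 0 < ρ' ∧
      (IsDisc x x0 M t (a k) ρ ρ' (1 / (k + 1 : ℝ)) d.1 d.2.1 d.2.2 ∧
        ρ' ≤ 1 / (((k + 1 : ℕ) + 1 : ℝ) * (1 + |u (k + 1)|))) := by
    intro k ρ hρ
    obtain ⟨ρ', e, q, b, hρ', h⟩ := pick D (ha k) (ha' k) (ε := 1 / (k + 1 : ℝ)) hρ
      (by positivity)
    exact ⟨(e, q, b), min ρ' (1 / (((k + 1 : ℕ) + 1 : ℝ) * (1 + |u (k + 1)|))),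
      lt_min hρ' (by positivity), h.mono (min_le_left _ _), min_le_right _ _⟩
  obtain ⟨d, ρ, h0, h1, h2⟩ := exists_seq (D := (ℂ → Pt I) × ℂ × HP)
    (fun k ρ d ρ' => IsDisc x x0 M t (a k) ρ ρ' (1 / (k + 1 : ℝ)) d.1 d.2.1 d.2.2 ∧
      ρ' ≤ 1 / (((k + 1 : ℕ) + 1 : ℝ) * (1 + |u (k + 1)|))) key
    (r₀ := 1 / ((0 + 1 : ℝ) * (1 + |u 0|))) (by positivity)
  refine ⟨ρ, fun k => (d k).1, fun k => (d k).2.1, fun k => (d k).2.2, h1, fun k => ?_,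
    fun k => (h2 k).1⟩
  cases k with
  | zero => rw [h0, Nat.cast_zero]
  | succ k => exact (h2 k).2

end Pool.Agent.Lib.MP_7c9e3d_gt
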