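import Pool.Agent.Lib.MP_7c9e3d_gt.Stage

/-!
# JOB PrA: the projection is continuous on the stages

`Specs x A g S`: all `g β`, `β ∈ S`, satisfy their requirements. `continuous_psi_pr`: by well-founded induction on `β ∈ S` we show that `w ↦ pr x (psi g β w)` is continuous. By induction `pr x` is continuous on
`stage g (Iio β)` (continuity on a stage means: the preimage under `inl` of an open set is open, and so is the preimage under `psi g γ`, `γ ∈ Iio β`), so `z ↦ pr x (g β z)` is continuous and
`continuousAt_psi` gives continuity at the points outside the ray. At a point `s` of the ray: on the ray the value is `x β`; outside, `rt_near s` and `lim` with `R = √s + 1`.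
-/

open Topology

namespace Pool.Agent.Lib.MP_7c9e3d_gt

variable {I : Type} [LinearOrder I]

/-- All requirements for `g β`, `β ∈ S`. -/
def Specs (x : I → ℝ) (A : I → Set (Pt I)) (g : I → HP → Pt I) (S : Set I) : Prop :=
  ∀ β ∈ S, Spec x A g β

variable {x : I → ℝ} {A : I → Set (Pt I)} {g : I → HP → Pt I} {S : Set I}

theorem Specs.mono {T : Set I} (h : Specs x A g T) (hS : S ⊆ T) : Specs x A g S :=
  fun β hβ => h β (hS hβ)

theorem Specs.emb (h : Specs x A g S) : Emb g S := fun β hβ => ⟨(h β hβ).maps, (h β hβ).emb⟩

variable [WellFoundedLT I]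

omit [LinearOrder I] [WellFoundedLT I] in
private theorem prA_open {T : Set I} (h : ∀ γ, γ ∈ T → Continuous fun w => pr x (psi g γ w))
    {O : Set ℂ} (hO : IsOpen O) : IsOpen[stage g T] (pr x ⁻¹' O) := by
  rw [isOpen_stage_iff]
  constructor
  · have h1 : Continuous fun z : HP => pr x (Sum.inl z : Pt I) := continuous_subtype_val
    exact hO.preimage h1
  · intro γ hγ
    exact hO.preimage (h γ hγ)

theorem continuous_psi_pr (hS : IsLowerSet S) (h : Specs x A g S) {β : I} (hβ : β ∈ S) :
    Continuous fun w => pr x (psi g β w) := by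
  revert hβ
  induction β using WellFoundedLT.induction with
  | ind β ih =>
    intro hβ
    have hlow : ∀ γ, γ ∈ Set.Iio β → Continuous fun w => pr x (psi g γ w) :=
      fun γ hγ => ih γ hγ (hS (le_of_lt hγ) hβ)
    have hg : Continuous fun z : HP => pr x (g β z) := by
      rw [continuous_def]
      intro O hO
      have h1 := prA_open (g := g) (x := x) hlow hO
      let t := stage g (Set.Iio β)
      have h2 : Continuous (g β) := (h β hβ).emb.continuous
      exact h2.isOpen_preimage _ h1
    rw [continuous_iff_continuousAt]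
    intro w
    by_cases hw : w ∈ ray
    · obtain ⟨s, hs⟩ : ∃ s : NNReal, s = ⟨w.re, hw.2⟩ := ⟨_, rfl⟩
      have hws : w = ((s : ℝ) : ℂ) := by
        rw [hs]
        apply Complex.ext
        · rfl
        · exact hw.1
      rw [Metric.continuousAt_iff]
      intro ε hε
      obtain ⟨δ, hδ, h1⟩ := (h β hβ).lim (Real.sqrt s + 1) ε hε
      obtain ⟨ε', hε', h2⟩ := rt_near s hδ
      refine ⟨ε', hε', fun {w'} hw' => ?_⟩
      have h3 : pr x (psi g β w) = (x β : ℂ) := by
        rw [psi_of_mem g β hw, pr_inr]
      rw [h3]
      by_cases hw1 : w' ∈ ray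
      · rw [psi_of_mem g β hw1, pr_inr, dist_self]
        exact hε
      · rw [psi_of_notMem g β hw1, dist_eq_norm]
        rw [dist_eq_norm, hws] at hw'
        obtain ⟨h4, h5⟩ := h2 w' hw1 hw'
        exact h1 (rtH w' hw1) h5 h4
    · exact continuousAt_psi hg hw

theorem continuous_pr (hS : IsLowerSet S) (h : Specs x A g S) :
    @Continuous _ _ (stage g S) _ (pr x) := by
  let t := stage g S
  rw [continuous_def]
  intro O hO
  exact prA_open (fun γ hγ => continuous_psi_pr hS h hγ) hO

end Pool.Agent.Lib.MP_7c9e3d_gt
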