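import Pool.Agent.Lib.MP_7c9e3d_gt.PrA

/-!
# JOB T2s: the stages are Hausdorff spaces

Let `p ≠ q`. If `p ∉ MS S` then `{p}` and `{p}ᶜ` are open in `stage g S` (`isOpen_of_disjoint`; the preimages of `{p}ᶜ` are everything, except that the preimage under `inl` is everything as `p` is not in
the half plane; `psi g β w ∈ MS (Iic β) ⊆ MS S`). Same for `q`. If both are in `MS S` and `pr x p ≠ pr x q`: preimages of disjoint open sets under `pr x` (`continuous_pr`). If `pr x p = pr x q`: a point of the half
plane has positive imaginary part, so either both are in the half plane and `p = q`, or both are in fibres, of the same index `β ∈ S` as `x` is injective, `p = psi g β s`, `q = psi g β s'` (`psi_coe`),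
`s ≠ s'`, and the images of disjoint open sets under the open embedding `psi g β` (`psi_emb`) separate. Work with `letI := stage g S`, `t2_iff_...` / `⟨fun p q h => ..⟩`.
-/

open Topology

namespace Pool.Agent.Lib.MP_7c9e3d_gt

variable {I : Type} [LinearOrder I] [WellFoundedLT I]
variable {x : I → ℝ} {A : I → Set (Pt I)} {g : I → HP → Pt I} {S : Set I}

theorem t2_stage (hx : Function.Injective x) (hS : IsLowerSet S) (h : Specs x A g S) :
    @T2Space (Pt I) (stage g S) := by
  letI := stage g S
  have hE : Emb g S := h.emb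
  have hpr : Continuous (pr x) := continuous_pr hS h
  have key : ∀ p q : Pt I, p ∉ MS S → q ≠ p →
      ∃ u v : Set (Pt I), IsOpen u ∧ IsOpen v ∧ p ∈ u ∧ q ∈ v ∧ Disjoint u v := by
    intro p q hp hqp
    refine ⟨{p}, {p}ᶜ, ?_, ?_, rfl, hqp, disjoint_compl_right⟩
    · exact isOpen_of_disjoint hS hE (Set.disjoint_singleton_left.2 hp)
    · refine ⟨?_, fun β hβ => ?_⟩
      · have h1 : (Sum.inl : HP → Pt I) ⁻¹' {p}ᶜ = Set.univ := by
          refine Set.eq_univ_of_forall fun z hz => hp ?_
          have h2 : (Sum.inl z : Pt I) = p := hz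
          rw [← h2]
          exact inl_mem_MS z
        rw [h1]
        exact isOpen_univ
      · have h1 : psi g β ⁻¹' {p}ᶜ = Set.univ := by
          refine Set.eq_univ_of_forall fun w hw => hp ?_
          have h2 : psi g β w = p := hw
          rw [← h2]
          exact MS_mono (hS.Iic_subset hβ) (psi_mem_MS (hE β hβ).1 w)
        rw [h1]
        exact isOpen_univ
  refine ⟨fun p q hpq => ?_⟩
  by_cases hp : p ∈ MS S
  swap
  · exact key p q hp hpq.symm
  by_cases hq : q ∈ MS S
  swap
  · obtain ⟨u, v, hu, hv, h1, h2, h3⟩ := key q p hq hpq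
    exact ⟨v, u, hv, hu, h2, h1, h3.symm⟩
  by_cases hne : pr x p = pr x q
  swap
  · obtain ⟨u, v, hu, hv, h1, h2, h3⟩ := t2_separation hne
    exact ⟨pr x ⁻¹' u, pr x ⁻¹' v, hu.preimage hpr, hv.preimage hpr, h1, h2, h3.preimage _⟩
  rcases mem_MS_or hp with ⟨z, rfl⟩ | ⟨β, hβ, s, rfl⟩
  · rcases mem_MS_or hq with ⟨z', rfl⟩ | ⟨γ, hγ, s', rfl⟩
    · exfalso
      rw [pr_inl, pr_inl] at hne
      exact hpq (congrArg Sum.inl (Subtype.ext hne))
    · exfalso
      rw [pr_inl, pr_inr] at hne
      have h1 := z.2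
      rw [hne, Complex.ofReal_im] at h1
      exact lt_irrefl _ h1
  · rcases mem_MS_or hq with ⟨z', rfl⟩ | ⟨γ, hγ, s', rfl⟩
    · exfalso
      rw [pr_inl, pr_inr] at hne
      have h1 := z'.2
      rw [← hne, Complex.ofReal_im] at h1
      exact lt_irrefl _ h1
    · rw [pr_inr, pr_inr] at hne
      have h1 : β = γ := hx (Complex.ofReal_injective hne)
      subst h1
      have h2 : ((s : ℝ) : ℂ) ≠ ((s' : ℝ) : ℂ) := by
        intro h3
        apply hpq
        have h4 : s = s' := NNReal.coe_injective (Complex.ofReal_injective h3)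
        rw [h4]
      have he : IsOpenEmbedding (psi g β) := psi_emb hS hE hβ
      obtain ⟨u, v, hu, hv, h5, h6, h7⟩ := t2_separation h2
      refine ⟨psi g β '' u, psi g β '' v, he.isOpenMap u hu, he.isOpenMap v hv,
        ⟨_, h5, psi_coe g β s⟩, ⟨_, h6, psi_coe g β s'⟩, ?_⟩
      exact (Set.disjoint_image_iff he.injective).2 h7

end Pool.Agent.Lib.MP_7c9e3d_gt
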