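import Pool.Agent.Lib.MP_7c9e3d_gt.StepB
import Pool.Agent.Lib.MP_7c9e3d_gt.T2s
import Pool.Agent.Lib.MP_7c9e3d_gt.Cls

/-!
# JOB RecA: the data of a stage

* `stepData`: collect `t2_stage`, `continuous_pr`, `inl_emb`, `inl_mem_MS`, `isOpen_of_disjoint` (for `(MS S)ᶜ`), `dense_inl`, `exists_chart` for `S = Iio α` (a lower set); `ne`: `pr x p` has positive imaginary
  part or is `x β` with `β < α`, `x` injective.
* `targets_countable`: image of `Iio α`.
* `stage_congr`: `psi g β = psi g' β`.
-/

open Topology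

namespace Pool.Agent.Lib.MP_7c9e3d_gt

variable {I : Type} [LinearOrder I]
variable {x : I → ℝ} {A : I → Set (Pt I)} {g : I → HP → Pt I}

omit [LinearOrder I] in
private theorem recA_psi_congr {g g' : I → HP → Pt I} {β : I} (h : g β = g' β) :
    psi g β = psi g' β := by
  funext w
  unfold psi
  rw [h]

theorem stage_congr {g g' : I → HP → Pt I} {S : Set I} (h : ∀ β ∈ S, g β = g' β) :
    stage g S = stage g' S := by
  ext U
  rw [isOpen_stage_iff, isOpen_stage_iff]
  constructor
  · rintro ⟨h1, h2⟩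
    refine ⟨h1, fun β hβ => ?_⟩
    rw [← recA_psi_congr (h β hβ)]
    exact h2 β hβ
  · rintro ⟨h1, h2⟩
    refine ⟨h1, fun β hβ => ?_⟩
    rw [recA_psi_congr (h β hβ)]
    exact h2 β hβ

theorem targets_countable (hc : ∀ α : I, (Set.Iio α).Countable) (α : I) :
    (targets x A α).Countable := by
  refine ((hc α).image A).mono ?_
  rintro a ⟨ξ, hξ, rfl, -, -⟩
  exact ⟨ξ, hξ, rfl⟩

variable [WellFoundedLT I]

omit [WellFoundedLT I] in
private theorem recA_ne (hx : Function.Injective x) (α : I) {p : Pt I}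
    (hp : p ∈ MS (Set.Iio α)) : pr x p ≠ (x α : ℂ) := by
  intro hpx
  rcases p with z | a
  · rw [pr_inl] at hpx
    have h1 : z.1.im = 0 := by rw [hpx, Complex.ofReal_im]
    exact z.2.ne' h1
  · rw [pr_inr] at hpx
    have h1 : x a.1 = x α := Complex.ofReal_injective hpx
    have h2 : a.1 < α := inr_mem_MS.1 hp
    exact h2.ne (hx h1)

theorem stepData (hx : Function.Injective x) (α : I) (h : Specs x A g (Set.Iio α)) :
    StepData x (x α) (MS (Set.Iio α)) (stage g (Set.Iio α)) := by
  exact {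
    t2 := t2_stage hx (isLowerSet_Iio α) h
    cont := continuous_pr (isLowerSet_Iio α) h
    inl_emb := Pool.Agent.Lib.MP_7c9e3d_gt.inl_emb (isLowerSet_Iio α) h.emb
    inl_mem := fun z => inl_mem_MS z
    compl_open := isOpen_of_disjoint (isLowerSet_Iio α) h.emb disjoint_compl_left
    ne := fun _ hp => recA_ne hx α hp
    dense := fun _ hp => dense_inl (isLowerSet_Iio α) h hp
    chart := fun _ hp _ hU hpU _ hε => exists_chart (isLowerSet_Iio α) h hp hU hpU hε }

end Pool.Agent.Lib.MP_7c9e3d_gt
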