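import Pool.Agent.Lib.MP_7c9e3d_gt.RecA

/-!
# JOB RecB: the recursion

* `exists_rec`: `F α (ih : ∀ β < α, HP → Pt I) : HP → Pt I` := let `g' β = if h : β < α then ih β h else Sum.inl`; if some `f` satisfies `Good x (x α) (MS (Iio α)) (stage g' (Iio α)) (targets x A α) f` take it, otherwise `Sum.inl`.
  `g = WellFounded.fix _ F`, `WellFounded.fix_eq`. Then `Spec x A g α` by strong induction: `g'` agrees with `g` on `Iio α` (`stage_congr`), the stage `Iio α` of `g` satisfies `Specs`, `stepData`, `step`.
-/

open Topology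

namespace Pool.Agent.Lib.MP_7c9e3d_gt

variable {I : Type} [LinearOrder I] [WellFoundedLT I]
variable {x : I → ℝ} {A : I → Set (Pt I)} {g : I → HP → Pt I}

open Classical in
private noncomputable def recb_ext (α : I) (ih : ∀ β, β < α → HP → Pt I) : I → HP → Pt I :=
  fun β => if h : β < α then ih β h else Sum.inl

open Classical in
private noncomputable def recb_F (x : I → ℝ) (A : I → Set (Pt I)) (α : I)
    (ih : ∀ β, β < α → HP → Pt I) : HP → Pt I :=
  if h : ∃ f : HP → Pt I, Good x (x α) (MS (Set.Iio α)) (stage (recb_ext α ih) (Set.Iio α))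
    (targets x A α) f then h.choose else Sum.inl

private noncomputable def recb_g (x : I → ℝ) (A : I → Set (Pt I)) : I → HP → Pt I :=
  (wellFounded_lt (α := I)).fix (C := fun _ => HP → Pt I) (recb_F x A)

private theorem recb_g_eq (x : I → ℝ) (A : I → Set (Pt I)) (α : I) :
    recb_g x A α = recb_F x A α (fun β _ => recb_g x A β) :=
  WellFounded.fix_eq _ _ _

theorem exists_rec (hc : ∀ α : I, (Set.Iio α).Countable) (hx : Function.Injective x)
    (A : I → Set (Pt I)) : ∃ g : I → HP → Pt I, ∀ α, Spec x A g α := by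
  refine ⟨recb_g x A, ?_⟩
  intro α
  induction α using WellFoundedLT.induction with
  | ind α ih =>
    have hS : Specs x A (recb_g x A) (Set.Iio α) := fun β hβ => ih β hβ
    have D := stepData hx α hS
    obtain ⟨f, hf⟩ := step D (targets_countable (x := x) (A := A) hc α) (by
      rintro a ⟨ξ, hξ, rfl, h1, h2⟩
      exact ⟨h1, h2⟩)
    have hst : stage (recb_ext α (fun β _ => recb_g x A β)) (Set.Iio α) =
        stage (recb_g x A) (Set.Iio α) := stage_congr fun β hβ => dif_pos hβ
    have hex : ∃ f, Good x (x α) (MS (Set.Iio α))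
        (stage (recb_ext α (fun β _ => recb_g x A β)) (Set.Iio α)) (targets x A α) f :=
      ⟨f, by rw [hst]; exact hf⟩
    have h1 : recb_g x A α = hex.choose := by
      rw [recb_g_eq, recb_F]
      exact dif_pos hex
    have h2 := hex.choose_spec
    rw [← h1, hst] at h2
    exact h2

end Pool.Agent.Lib.MP_7c9e3d_gt
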