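import Pool.Agent.Lib.MP_7c9e3d_gt.Base

/-!
# JOB Rt: the square root in the upper half plane

`rt w = I * exp (log (-w) / 2)`, so `rt w ^ 2 = - exp (log (-w)) = w` for `w ≠ 0` (`0 ∈ ray`).
* `sq_notMem_ray`: if `z ^ 2` is real then `2 z.re z.im = 0`, so `z.re = 0` and `z ^ 2 = - z.im ^ 2 < 0`.
* `rt_of_sq`: `rt (z ^ 2) ^ 2 = z ^ 2`, so `rt (z ^ 2) = z` or `= - z`; both `rt (z ^ 2)` and `z` have positive imaginary part.
* `isClosed_ray`: preimages of closed sets.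
* `continuousOn_rt`: `Complex.log` is continuous on `slitPlane` (`continuousAt_clog`), `neg_mem_slitPlane`.
* `rt_near`: put `r = rt w`. From `r ^ 2 = w`: `w.re = r.re ^ 2 - r.im ^ 2` and `r.re ^ 2 + r.im ^ 2 = ‖w‖`, so `2 r.im ^ 2 = ‖w‖ - w.re ≤ (s + ε) - (s - ε) = 2 ε`
  and `r.re ^ 2 ≤ ‖w‖ < s + ε ≤ (√s + 1) ^ 2`. Take `ε = min 1 (δ ^ 2)` (and strict inequalities: `‖w - s‖ < ε`).
* `isOpen_rtH_preimage`: `O = Subtype.val ⁻¹' O'` with `O'` open (`isOpen_induced_iff`); the set is `rayᶜ ∩ rt ⁻¹' O'` (`ContinuousOn.isOpen_inter_preimage`).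
-/

open Topology

namespace Pool.Agent.Lib.MP_7c9e3d_gt

theorem isClosed_ray : IsClosed ray :=
  (isClosed_eq Complex.continuous_im continuous_const).inter
    (isClosed_le continuous_const Complex.continuous_re)

theorem rt_sq {w : ℂ} (h : w ∉ ray) : rt w ^ 2 = w := by
  have h1 := Complex.slitPlane_ne_zero (neg_mem_slitPlane h)
  rw [rt, mul_pow, Complex.I_sq, ← Complex.exp_nat_mul]
  have h2 : ((2 : ℕ) : ℂ) * (Complex.log (-w) / 2) = Complex.log (-w) := by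
    push_cast
    ring
  rw [h2, Complex.exp_log h1]
  ring

theorem sq_notMem_ray {z : ℂ} (h : 0 < z.im) : z ^ 2 ∉ ray := by
  rintro ⟨h1, h2⟩
  rw [pow_two, Complex.mul_im] at h1
  rw [pow_two, Complex.mul_re] at h2
  have h3 : z.re * z.im = 0 := by linarith [mul_comm z.im z.re]
  rcases mul_eq_zero.1 h3 with h4 | h4
  · rw [h4] at h2
    nlinarith
  · exact absurd h4 h.ne'

theorem rt_of_sq {z : ℂ} (h : 0 < z.im) : rt (z ^ 2) = z := by
  have h1 := rt_sq (sq_notMem_ray h)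
  rcases sq_eq_sq_iff_eq_or_eq_neg.1 h1 with h2 | h2
  · exact h2
  · have h3 := rt_im_pos (sq_notMem_ray h)
    rw [h2, Complex.neg_im] at h3
    linarith

theorem continuousOn_rt : ContinuousOn rt rayᶜ := by
  have h1 : ContinuousOn (fun w : ℂ => Complex.log (-w)) rayᶜ :=
    ContinuousOn.clog continuous_neg.continuousOn fun w hw => neg_mem_slitPlane hw
  exact continuousOn_const.mul ((h1.div_const 2).cexp)

/-- Near the ray the square root is near the real axis. -/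
theorem rt_near (s : NNReal) {δ : ℝ} (hδ : 0 < δ) : ∃ ε : ℝ, 0 < ε ∧ ∀ w : ℂ, w ∉ ray →
    ‖w - ((s : ℝ) : ℂ)‖ < ε → (rt w).im < δ ∧ |(rt w).re| < Real.sqrt s + 1 := by
  refine ⟨min 1 (δ ^ 2), lt_min one_pos (by positivity), ?_⟩
  intro w hw hn
  have hn1 : ‖w - ((s : ℝ) : ℂ)‖ < 1 := lt_of_lt_of_le hn (min_le_left _ _)
  have hn2 : ‖w - ((s : ℝ) : ℂ)‖ < δ ^ 2 := lt_of_lt_of_le hn (min_le_right _ _)
  have hb := rt_im_pos hw
  have h1 := rt_sq hw
  set r := rt w with hr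
  have hre : w.re = r.re ^ 2 - r.im ^ 2 := by
    rw [← h1, pow_two, Complex.mul_re]
    ring
  have hnorm : ‖w‖ = r.re ^ 2 + r.im ^ 2 := by
    rw [← h1, norm_pow, Complex.sq_norm, Complex.normSq_apply]
    ring
  have h2 : |w.re - s| ≤ ‖w - ((s : ℝ) : ℂ)‖ := by
    have := Complex.abs_re_le_norm (w - ((s : ℝ) : ℂ))
    rwa [Complex.sub_re, Complex.ofReal_re] at this
  have h3 : |‖w‖ - s| ≤ ‖w - ((s : ℝ) : ℂ)‖ := by
    have h8 := abs_norm_sub_norm_le w ((s : ℝ) : ℂ)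
    have h9 : ‖((s : ℝ) : ℂ)‖ = (s : ℝ) := by
      rw [Complex.norm_real, Real.norm_eq_abs, abs_of_nonneg (NNReal.coe_nonneg s)]
    rwa [h9] at h8
  have h2' := abs_le.1 h2
  have h3' := abs_le.1 h3
  constructor
  · have h4 : r.im ^ 2 < δ ^ 2 := by
      nlinarith [h2'.1, h3'.2]
    exact lt_of_pow_lt_pow_left₀ 2 hδ.le h4
  · have hs : (0 : ℝ) ≤ s := NNReal.coe_nonneg s
    have h5 : r.re ^ 2 < (Real.sqrt s + 1) ^ 2 := by
      have h6 := Real.sq_sqrt hs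
      have h7 := Real.sqrt_nonneg (s : ℝ)
      nlinarith [h3'.2, sq_nonneg r.im]
    exact abs_lt_of_sq_lt_sq h5 (by positivity)

theorem isOpen_rtH_preimage {O : Set HP} (hO : IsOpen O) :
    IsOpen {w : ℂ | ∃ h : w ∉ ray, rtH w h ∈ O} := by
  obtain ⟨O', hO', rfl⟩ := isOpen_induced_iff.1 hO
  have h1 : {w : ℂ | ∃ h : w ∉ ray, rtH w h ∈ Subtype.val ⁻¹' O'} = rayᶜ ∩ rt ⁻¹' O' := by
    ext w
    constructor
    · rintro ⟨h, h2⟩
      exact ⟨h, h2⟩
    · rintro ⟨h, h2⟩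
      exact ⟨h, h2⟩
  rw [h1]
  exact continuousOn_rt.isOpen_inter_preimage isClosed_ray.isOpen_compl hO'

/-- Points of the ray are limits of points outside. -/
theorem exists_notMem_ray (s : NNReal) {W : Set ℂ} (hW : IsOpen W) (hs : ((s : ℝ) : ℂ) ∈ W) :
    ∃ w ∈ W, w ∉ ray := by
  obtain ⟨r, hr, hrW⟩ := Metric.isOpen_iff.1 hW _ hs
  refine ⟨((s : ℝ) : ℂ) + ((r / 2 : ℝ) : ℂ) * Complex.I, hrW ?_, ?_⟩
  · rw [Metric.mem_ball, dist_eq_norm, add_sub_cancel_left, norm_mul, Complex.norm_I, mul_one,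
      Complex.norm_real, Real.norm_of_nonneg (by positivity)]
    linarith
  · rintro ⟨h1, -⟩
    simp only [Complex.add_im, Complex.ofReal_im, Complex.mul_im, Complex.ofReal_re, Complex.I_im,
      mul_one, Complex.I_re, mul_zero, add_zero, zero_add] at h1
    linarith

end Pool.Agent.Lib.MP_7c9e3d_gt
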