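import Pool.Agent.Lib.MP_7c9e3d_gt.PrA

/-!
# JOB Sml: small neighbourhoods

`p = inl z`: `U = inl '' {z' | ‖z' - z‖ < ε / 2}` (open by `inl_emb`). `p = inr (β, s)`, `β ∈ S`: by `continuous_psi_pr` there is `δ₁` with `‖pr x (psi g β w) - x β‖ < ε / 2` for `‖w - s‖ < δ₁`; by `small` of `Spec`
(with `R = √s + 1`, giving `δ`) and `rt_near s` (giving `δ₂`) the points `psi g β w`, `w ∉ ray`, `‖w - s‖ < δ₂` have fibre parts of diameter `< ε`; let `δ₃ = min (δ₁, δ₂, ε / 2)` and `U = psi g β '' ball s δ₃`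
(`psi_emb`). Fibre part for `γ = β`: only points of the ray (`psi_eq_inr`), `|s' - s''| < 2 δ₃ ≤ ε`. For `γ ≠ β`: points outside the ray (`psi_of_mem` gives the fibre `β`).
-/

open Topology

namespace Pool.Agent.Lib.MP_7c9e3d_gt

variable {I : Type} [LinearOrder I] [WellFoundedLT I]
variable {x : I → ℝ} {A : I → Set (Pt I)} {g : I → HP → Pt I} {S : Set I}

theorem exists_small (hS : IsLowerSet S) (h : Specs x A g S) {p : Pt I} (hp : p ∈ MS S) {ε : ℝ}
    (hε : 0 < ε) : ∃ U, IsOpen[stage g S] U ∧ p ∈ U ∧ IsSmall x ε U := by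
  rcases mem_MS_or hp with ⟨z, rfl⟩ | ⟨β, hβ, s, rfl⟩
  · refine ⟨Sum.inl '' {z' : HP | ‖z'.1 - z.1‖ < ε / 2}, ?_, ?_, ?_, ?_⟩
    · letI := stage g S
      refine (inl_emb hS h.emb).isOpenMap _ ?_
      have hc : Continuous fun z' : HP => ‖z'.1 - z.1‖ := by fun_prop
      exact isOpen_lt hc continuous_const
    · exact ⟨z, by simpa using half_pos hε, rfl⟩
    · rintro _ ⟨z1, h1, rfl⟩ _ ⟨z2, h2, rfl⟩
      have h1' : ‖z1.1 - z.1‖ < ε / 2 := h1
      have h2' : ‖z2.1 - z.1‖ < ε / 2 := h2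
      rw [pr_inl, pr_inl]
      calc ‖z1.1 - z2.1‖ = ‖(z1.1 - z.1) - (z2.1 - z.1)‖ := by congr 1; ring
        _ ≤ ‖z1.1 - z.1‖ + ‖z2.1 - z.1‖ := norm_sub_le _ _
        _ < ε := by linarith
    · rintro γ s s' ⟨z1, _, h1⟩
      cases h1
  · have hmaps := (h β hβ).maps
    have hcont := continuous_psi_pr hS h hβ
    have hx : pr x (psi g β ((s : ℝ) : ℂ)) = (x β : ℂ) := by rw [psi_coe]; rfl
    obtain ⟨δ₁, hδ₁, H₁⟩ : ∃ δ₁ : ℝ, 0 < δ₁ ∧ ∀ w : ℂ, ‖w - ((s : ℝ) : ℂ)‖ < δ₁ →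
        ‖pr x (psi g β w) - x β‖ < ε / 2 := by
      have h1 := Metric.continuous_iff.1 hcont ((s : ℝ) : ℂ) (ε / 2) (half_pos hε)
      obtain ⟨δ, hδ, H⟩ := h1
      refine ⟨δ, hδ, fun w hw => ?_⟩
      have h2 := H w (by rwa [dist_eq_norm])
      rwa [dist_eq_norm, hx] at h2
    obtain ⟨δ, hδ, H⟩ := (h β hβ).small (Real.sqrt s + 1) ε hε
    obtain ⟨δ₂, hδ₂, H₂⟩ := rt_near s hδ
    have hpos : 0 < min (min δ₁ δ₂) (ε / 2) := lt_min (lt_min hδ₁ hδ₂) (half_pos hε)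
    refine ⟨psi g β '' Metric.ball ((s : ℝ) : ℂ) (min (min δ₁ δ₂) (ε / 2)), ?_, ?_, ?_, ?_⟩
    · letI := stage g S
      exact (psi_emb hS h.emb hβ).isOpenMap _ Metric.isOpen_ball
    · exact ⟨_, Metric.mem_ball_self hpos, psi_coe g β s⟩
    · rintro _ ⟨w1, h1, rfl⟩ _ ⟨w2, h2, rfl⟩
      rw [Metric.mem_ball, dist_eq_norm] at h1 h2
      have h1' := H₁ w1 (h1.trans_le ((min_le_left _ _).trans (min_le_left _ _)))
      have h2' := H₁ w2 (h2.trans_le ((min_le_left _ _).trans (min_le_left _ _)))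
      calc ‖pr x (psi g β w1) - pr x (psi g β w2)‖
          = ‖(pr x (psi g β w1) - x β) - (pr x (psi g β w2) - x β)‖ := by congr 1; ring
        _ ≤ ‖pr x (psi g β w1) - x β‖ + ‖pr x (psi g β w2) - x β‖ := norm_sub_le _ _
        _ < ε := by linarith
    · rintro γ t t' ⟨w1, h1, e1⟩ ⟨w2, h2, e2⟩
      rw [Metric.mem_ball, dist_eq_norm] at h1 h2
      by_cases hγ : γ = β
      · subst hγ
        have e1' := psi_eq_inr hmaps e1
        have e2' := psi_eq_inr hmaps e2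
        subst e1' e2'
        have h1' := h1.trans_le (min_le_right _ _)
        have h2' := h2.trans_le (min_le_right _ _)
        rw [← Complex.ofReal_sub, Complex.norm_real, Real.norm_eq_abs] at h1' h2'
        calc |(t : ℝ) - t'| = |((t : ℝ) - s) - ((t' : ℝ) - s)| := by congr 1; ring
          _ ≤ |(t : ℝ) - s| + |(t' : ℝ) - s| := abs_sub _ _
          _ < ε := by linarith
      · have n1 : w1 ∉ ray := by
          intro hw
          rw [psi_of_mem g β hw] at e1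
          exact hγ (congrArg Prod.fst (Sum.inr.inj e1)).symm
        have n2 : w2 ∉ ray := by
          intro hw
          rw [psi_of_mem g β hw] at e2
          exact hγ (congrArg Prod.fst (Sum.inr.inj e2)).symm
        rw [psi_of_notMem g β n1] at e1
        rw [psi_of_notMem g β n2] at e2
        have k1 := H₂ w1 n1 (h1.trans_le ((min_le_left _ _).trans (min_le_right _ _)))
        have k2 := H₂ w2 n2 (h2.trans_le ((min_le_left _ _).trans (min_le_right _ _)))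
        exact H (rtH w1 n1) (rtH w2 n2) k1.2 k1.1 k2.2 k2.1 γ t t' e1 e2

end Pool.Agent.Lib.MP_7c9e3d_gt
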