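import Pool.Agent.Lib.MP_7c9e3d_gt.Psi

/-!
# JOB Stage: the topologies `stage g S`

* `isOpen_up`: we show `IsOpen (psi g β ⁻¹' U)` for all `β ∈ S₂` by well-founded induction on `β`. If `β ∈ S₁`: hypothesis. If `β ∉ S₁`: `U ⊆ MS S₁` does not meet the fibre `β`; `U` is open in
  `stage g (Iio β)` (its `inl` part is open, and `psi g γ ⁻¹' U` is open for `γ < β` by induction, `γ ∈ S₂` as `S₂` is lower), so `g β ⁻¹' U` is open (`g β` is continuous), `isOpen_psi_preimage`.
* `isOpen_MS`: for `β ∈ S₂`, again by induction: `psi g β ⁻¹' MS S₁` is everything if `β ∈ S₁` (`psi_mem_MS`, `MS_mono`), and if `β ∉ S₁` use `isOpen_psi_preimage` (`MS S₁` is open in `stage g (Iio β)` by induction).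
* `isOpen_of_disjoint`: the preimages are empty.
* `inl_emb`: `Topology.IsOpenEmbedding.of_continuous_injective_isOpenMap`; `inl '' U` is open in `stage g ∅`, `isOpen_up`.
* `psi_emb`: continuity is the definition. Open map: let `W` be open in `ℂ`, `O = {z : HP | z ^ 2 ∈ W}` (open). `psi g β '' W` is `g β '' O` together with points of the fibre `β`; `g β '' O` is open in
  `stage g (Iio β)`. So `psi g β '' W` is open in `stage g (Iic β)`: the preimage under `inl`, and under `psi g γ` for `γ < β`, is the preimage of `g β '' O` (`psi_mem_MS` for `γ`), and the preimage under `psi g β` is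
  `W` (injectivity). Then `isOpen_up` with `S₁ = Iic β`.
-/

open Topology

namespace Pool.Agent.Lib.MP_7c9e3d_gt

variable {I : Type} [LinearOrder I]

/-- The maps `g β`, `β ∈ S`, are open embeddings into the previous stages. -/
def Emb (g : I → HP → Pt I) (S : Set I) : Prop :=
  ∀ β ∈ S, (∀ z, g β z ∈ MS (Set.Iio β)) ∧
    @IsOpenEmbedding HP (Pt I) _ (stage g (Set.Iio β)) (g β)

theorem Emb.mono {g : I → HP → Pt I} {S T : Set I} (h : Emb g T) (hS : S ⊆ T) : Emb g S :=
  fun β hβ => h β (hS hβ)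

theorem isOpen_of_disjoint {g : I → HP → Pt I} {S : Set I} (hS : IsLowerSet S) (hE : Emb g S)
    {V : Set (Pt I)} (hV : Disjoint V (MS S)) : IsOpen[stage g S] V := by
  refine isOpen_stage_iff.2 ⟨?_, fun β hβ => ?_⟩
  · have h1 : (Sum.inl : HP → Pt I) ⁻¹' V = ∅ := by
      refine Set.eq_empty_of_forall_notMem fun z hz => ?_
      exact Set.disjoint_left.1 hV hz (inl_mem_MS z)
    rw [h1]
    exact isOpen_empty
  · have h1 : psi g β ⁻¹' V = ∅ := by
      refine Set.eq_empty_of_forall_notMem fun w hw => ?_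
      refine Set.disjoint_left.1 hV hw (MS_mono ?_ (psi_mem_MS (hE β hβ).1 w))
      exact fun γ hγ => hS hγ hβ
    rw [h1]
    exact isOpen_empty

variable [WellFoundedLT I]

private theorem stage_ind {g : I → HP → Pt I} {S₁ S₂ : Set I} (h₂ : IsLowerSet S₂)
    (hE : Emb g S₂) {U : Set (Pt I)} (hU : U ⊆ MS S₁)
    (h0 : IsOpen ((Sum.inl : HP → Pt I) ⁻¹' U))
    (h1 : ∀ β ∈ S₂, β ∈ S₁ → IsOpen (psi g β ⁻¹' U)) : IsOpen[stage g S₂] U := by
  have hkey : ∀ β : I, β ∈ S₂ → IsOpen (psi g β ⁻¹' U) := by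
    intro β
    induction β using WellFoundedLT.induction with
    | ind β ih =>
      intro hβ
      by_cases hβ1 : β ∈ S₁
      · exact h1 β hβ hβ1
      · refine isOpen_psi_preimage (fun s hs => hβ1 (inr_mem_MS.1 (hU hs))) ?_
        have h3 : IsOpen[stage g (Set.Iio β)] U :=
          isOpen_stage_iff.2 ⟨h0, fun γ hγ => ih γ hγ (h₂ (le_of_lt hγ) hβ)⟩
        exact @IsOpen.preimage HP (Pt I) _ (stage g (Set.Iio β)) (g β)
          (@IsOpenEmbedding.continuous HP (Pt I) (g β) _ (stage g (Set.Iio β)) (hE β hβ).2) U h3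
  exact isOpen_stage_iff.2 ⟨h0, hkey⟩

theorem isOpen_up {g : I → HP → Pt I} {S₁ S₂ : Set I} (h₂ : IsLowerSet S₂) (h : S₁ ⊆ S₂)
    (hE : Emb g S₂) {U : Set (Pt I)} (hU : U ⊆ MS S₁) (ho : IsOpen[stage g S₁] U) :
    IsOpen[stage g S₂] U := by
  exact stage_ind h₂ hE hU ho.1 fun β _ hβ1 => ho.2 β hβ1

theorem isOpen_MS {g : I → HP → Pt I} {S₁ S₂ : Set I} (h₁ : IsLowerSet S₁) (h₂ : IsLowerSet S₂)
    (hE : Emb g S₂) : IsOpen[stage g S₂] (MS S₁) := by
  refine stage_ind h₂ hE (fun _ hp => hp) ?_ fun β hβ hβ1 => ?_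
  · have h1 : (Sum.inl : HP → Pt I) ⁻¹' MS S₁ = Set.univ :=
      Set.eq_univ_of_forall fun z => inl_mem_MS z
    rw [h1]
    exact isOpen_univ
  · have h1 : psi g β ⁻¹' MS S₁ = Set.univ := by
      refine Set.eq_univ_of_forall fun w => MS_mono ?_ (psi_mem_MS (hE β hβ).1 w)
      exact fun γ hγ => h₁ hγ hβ1
    rw [h1]
    exact isOpen_univ

theorem inl_emb {g : I → HP → Pt I} {S : Set I} (hS : IsLowerSet S) (hE : Emb g S) :
    @IsOpenEmbedding HP (Pt I) _ (stage g S) Sum.inl := by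
  let t : TopologicalSpace (Pt I) := stage g S
  refine IsOpenEmbedding.of_continuous_injective_isOpenMap ?_ Sum.inl_injective ?_
  · exact continuous_def.2 fun U hU => hU.1
  · intro U hU
    refine stage_ind (S₁ := ∅) hS hE ?_ ?_ fun β _ hβ => absurd hβ (Set.notMem_empty β)
    · rintro _ ⟨z, -, rfl⟩
      exact inl_mem_MS z
    · rw [Set.preimage_image_eq _ Sum.inl_injective]
      exact hU

theorem psi_emb {g : I → HP → Pt I} {S : Set I} (hS : IsLowerSet S) (hE : Emb g S) {β : I}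
    (hβ : β ∈ S) : @IsOpenEmbedding ℂ (Pt I) _ (stage g S) (psi g β) := by
  have hmaps := (hE β hβ).1
  have hemb := (hE β hβ).2
  have hinj : Function.Injective (psi g β) := psi_injective hmaps
    (@IsEmbedding.injective HP (Pt I) _ (stage g (Set.Iio β)) (g β)
      (@IsOpenEmbedding.toIsEmbedding HP (Pt I) _ (stage g (Set.Iio β)) (g β) hemb))
  let t : TopologicalSpace (Pt I) := stage g S
  refine IsOpenEmbedding.of_continuous_injective_isOpenMap ?_ hinj ?_
  · exact continuous_def.2 fun U hU => hU.2 β hβ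
  · intro W hW
    have hO : IsOpen {z : HP | z.1 ^ 2 ∈ W} :=
      hW.preimage (continuous_subtype_val.pow 2)
    have hgO : IsOpen[stage g (Set.Iio β)] (g β '' {z : HP | z.1 ^ 2 ∈ W}) :=
      @IsOpenEmbedding.isOpenMap HP (Pt I) (g β) _ (stage g (Set.Iio β)) hemb _ hO
    have hiff : ∀ p ∈ MS (Set.Iio β), (p ∈ psi g β '' W ↔ p ∈ g β '' {z : HP | z.1 ^ 2 ∈ W}) := by
      intro p hp
      constructor
      · rintro ⟨w, hw, rfl⟩
        by_cases hr : w ∈ ray
        · rw [psi_of_mem g β hr, inr_mem_MS] at hp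
          exact absurd hp (lt_irrefl β)
        · refine ⟨rtH w hr, ?_, (psi_of_notMem g β hr).symm⟩
          show rt w ^ 2 ∈ W
          rw [rt_sq hr]
          exact hw
      · rintro ⟨z, hz, rfl⟩
        exact ⟨z.1 ^ 2, hz, psi_sq g β z⟩
    refine stage_ind (S₁ := Set.Iic β) hS hE ?_ ?_ fun γ hγ hγβ => ?_
    · rintro _ ⟨w, -, rfl⟩
      exact psi_mem_MS hmaps w
    · have h1 : (Sum.inl : HP → Pt I) ⁻¹' (psi g β '' W) =
          (Sum.inl : HP → Pt I) ⁻¹' (g β '' {z : HP | z.1 ^ 2 ∈ W}) := by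
        ext z
        exact hiff _ (inl_mem_MS z)
      rw [h1]
      exact hgO.1
    · rcases lt_or_eq_of_le (show γ ≤ β from hγβ) with hlt | rfl
      · have h1 : psi g γ ⁻¹' (psi g β '' W) =
            psi g γ ⁻¹' (g β '' {z : HP | z.1 ^ 2 ∈ W}) := by
          ext w
          refine hiff _ (MS_mono ?_ (psi_mem_MS (hE γ hγ).1 w))
          exact fun δ hδ => lt_of_le_of_lt hδ hlt
        rw [h1]
        exact hgO.2 γ hlt
      · rw [Set.preimage_image_eq _ hinj]
        exact hW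

end Pool.Agent.Lib.MP_7c9e3d_gt
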