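import Pool.Agent.Lib.MP_7c9e3d_gt.Base

/-!
# JOB Xi: a continuous function through a null sequence, and the shear

* `exists_xi`: `f : OnePoint ℕ → ℝ`, `k ↦ t k`, `∞ ↦ 0` is continuous (`OnePoint.continuous_iff_from_nat`) and injective, so a closed embedding (compact to Hausdorff,
  `Continuous.isClosedEmbedding`); `k ↦ y k`, `∞ ↦ 0` is continuous; Tietze: `ContinuousMap.exists_extension` (or `exists_extension'`).
* `shear`: `u + i t ↦ (x0 + ξ t + t u) + i t`, inverse `v + i t ↦ ((v - x0 - ξ t) / t) + i t`.
-/

open Topology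

namespace Pool.Agent.Lib.MP_7c9e3d_gt

private def xi_seq (t : ℕ → ℝ) (p : OnePoint ℕ) : ℝ := Option.elim p 0 t

private theorem xi_cont {t : ℕ → ℝ} (ht0 : Filter.Tendsto t Filter.atTop (𝓝 0)) :
    Continuous (xi_seq t) := by
  rw [OnePoint.continuous_iff_from_nat]
  exact ht0

theorem exists_xi {t y : ℕ → ℝ} (ht : ∀ k, 0 < t k) (ht' : StrictAnti t)
    (ht0 : Filter.Tendsto t Filter.atTop (𝓝 0)) (hy : Filter.Tendsto y Filter.atTop (𝓝 0)) :
    ∃ ξ : ℝ → ℝ, Continuous ξ ∧ ξ 0 = 0 ∧ ∀ k, ξ (t k) = y k := by
  have he1 : Continuous (xi_seq t) := xi_cont ht0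
  have he2 : Function.Injective (xi_seq t) := by
    intro a b hab
    induction a using OnePoint.rec with
    | infty =>
      induction b using OnePoint.rec with
      | infty => rfl
      | coe k => exact absurd hab (ht k).ne
    | coe j =>
      induction b using OnePoint.rec with
      | infty => exact absurd hab (ht j).ne'
      | coe k =>
        have h1 : t j = t k := hab
        rw [ht'.injective h1]
  have he3 : Topology.IsClosedEmbedding (xi_seq t) := he1.isClosedEmbedding he2
  obtain ⟨G, hG⟩ := ContinuousMap.exists_extension' he3 (⟨xi_seq y, xi_cont hy⟩ : C(OnePoint ℕ, ℝ))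
  refine ⟨G, G.continuous, ?_, fun k => ?_⟩
  · exact congrFun hG OnePoint.infty
  · exact congrFun hG (k : OnePoint ℕ)

private theorem xi_im (a : ℝ) {b : ℝ} (hb : 0 < b) : 0 < ((a : ℂ) + (b : ℂ) * Complex.I).im := by
  simpa using hb

theorem exists_shear (x0 : ℝ) {ξ : ℝ → ℝ} (hξ : Continuous ξ) :
    ∃ G : HP ≃ₜ HP, ∀ z : HP, (G z).1.re = x0 + ξ z.1.im + z.1.im * z.1.re ∧
      (G z).1.im = z.1.im := by
  have hc : Continuous (fun z : HP => ((x0 + ξ z.1.im + z.1.im * z.1.re : ℝ) : ℂ) +
      (z.1.im : ℂ) * Complex.I) := by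
    have h1 : Continuous (fun z : HP => z.1.im) := Complex.continuous_im.comp continuous_subtype_val
    have h2 : Continuous (fun z : HP => z.1.re) := Complex.continuous_re.comp continuous_subtype_val
    exact (Complex.continuous_ofReal.comp
      ((continuous_const.add (hξ.comp h1)).add (h1.mul h2))).add
      ((Complex.continuous_ofReal.comp h1).mul continuous_const)
  have hd : Continuous (fun z : HP => (((z.1.re - x0 - ξ z.1.im) / z.1.im : ℝ) : ℂ) +
      (z.1.im : ℂ) * Complex.I) := by
    have h1 : Continuous (fun z : HP => z.1.im) := Complex.continuous_im.comp continuous_subtype_val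
    have h2 : Continuous (fun z : HP => z.1.re) := Complex.continuous_re.comp continuous_subtype_val
    exact (Complex.continuous_ofReal.comp
      (((h2.sub continuous_const).sub (hξ.comp h1)).div h1 fun z => z.2.ne')).add
      ((Complex.continuous_ofReal.comp h1).mul continuous_const)
  refine ⟨{ toFun := fun z => ⟨_, xi_im (x0 + ξ z.1.im + z.1.im * z.1.re) z.2⟩
            invFun := fun z => ⟨_, xi_im ((z.1.re - x0 - ξ z.1.im) / z.1.im) z.2⟩
            left_inv := ?_
            right_inv := ?_
            continuous_toFun := hc.subtype_mk _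
            continuous_invFun := hd.subtype_mk _ }, ?_⟩
  · intro z
    have hz : z.1.im ≠ 0 := z.2.ne'
    apply Subtype.ext
    apply Complex.ext
    · simp only [Complex.add_re, Complex.add_im, Complex.ofReal_re, Complex.ofReal_im,
        Complex.mul_re, Complex.mul_im, Complex.I_re, Complex.I_im, mul_zero, mul_one, zero_add,
        add_zero, sub_zero]
      field_simp
      ring
    · simp only [Complex.add_im, Complex.ofReal_re, Complex.ofReal_im,
        Complex.mul_im, Complex.I_re, Complex.I_im, mul_zero, mul_one, zero_add,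
        add_zero]
  · intro z
    have hz : z.1.im ≠ 0 := z.2.ne'
    apply Subtype.ext
    apply Complex.ext
    · simp only [Complex.add_re, Complex.add_im, Complex.ofReal_re, Complex.ofReal_im,
        Complex.mul_re, Complex.mul_im, Complex.I_re, Complex.I_im, mul_zero, mul_one, zero_add,
        add_zero, sub_zero]
      field_simp
      ring
    · simp only [Complex.add_im, Complex.ofReal_re, Complex.ofReal_im,
        Complex.mul_im, Complex.I_re, Complex.I_im, mul_zero, mul_one, zero_add,
        add_zero]
  · intro z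
    constructor
    · show (((x0 + ξ z.1.im + z.1.im * z.1.re : ℝ) : ℂ) + (z.1.im : ℂ) * Complex.I).re = _
      simp
    · show (((x0 + ξ z.1.im + z.1.im * z.1.re : ℝ) : ℂ) + (z.1.im : ℂ) * Complex.I).im = _
      simp

end Pool.Agent.Lib.MP_7c9e3d_gt
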