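import Pool.Agent.Lib.MP_7c9e3d_gt.Disc
import Pool.Agent.Lib.MP_7c9e3d_gt.Phi
import Pool.Agent.Lib.MP_7c9e3d_gt.Xi

/-!
# JOB StepA: the new map for a given sequence of discs

`ξ` from `exists_xi` with `t k = (b k).im`, `y k = (b k).re - x0 - (b k).im * u k`; `G` = shear (`exists_shear`); `φ k` from `exists_ballHomeo` for `q k`; `F` from `exists_glue` (with `t` as instance; `Discs.disjoint` gives
`hdisj`, `Discs.locallyFinite`); `h z = F (inl (G z))`. First prove `private` facts: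
  (1) for every `z` either `h z = inl (G z)`, or there are `k`, `w`, `w'` with `‖w‖ ≤ 1`, `‖w'‖ ≤ 1`, `inl (G z) = e k w` and `h z = e k w'` (`w' = φ k w`; `norm_lt_of_homeo` for `‖w‖ < 1`, `φ k w = w` for `‖w‖ = 1`);
  (2) for `R`, `η > 0` there is `δ > 0` with `‖G z - x0‖ < η` for `|z.re| < R`, `z.im < δ`: `‖G z - x0‖ ≤ |ξ t + t u| + t ≤ |ξ t| + t R + t`, `ξ` continuous, `ξ 0 = 0`.
* `maps`: (1), `inl_mem`, `mem`.
* `emb`: `F` is a homeomorphism, `inl` an open embedding, `G` a homeomorphism.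
* `lim`: choose `K` with `ρ K < ε`, and `δ` for `η = min ε (ρ K)`. In the first case of (1) `pr x (h z) = G z`. In the second `ρ (k + 1) < ‖pr x (e k w) - x0‖ = ‖G z - x0‖ < ρ K`, so `K ≤ k` and `‖pr x (h z) - x0‖ < ρ k ≤ ρ K < ε`.
* `small`: choose `K` with `1/(K+1) < ε` and `δ` for `η = ρ K`. `h z = inr ..` excludes the first case of (1), so `h z = e k w'` with `K ≤ k` as before; same for `z'`; `pr x (h z) = pr x (h z')` gives the same `k`
  (`Discs.disjoint`), and `small` of the disc gives `|s - s'| < 1/(k+1) ≤ 1/(K+1) < ε`.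
* `hit` is empty. Second part: `z = u k + i (b k).im` has `G z = b k` (by `ξ (t k) = y k`), `h z = F (inl (b k)) = F (e k (q k)) = e k (φ k (q k)) = e k 0 ∈ a k`.
-/

open Topology

namespace Pool.Agent.Lib.MP_7c9e3d_gt

variable {I : Type}

variable {x : I → ℝ} {x0 : ℝ} {M : Set (Pt I)} {t : TopologicalSpace (Pt I)}
variable {a : ℕ → Set (Pt I)} {u ρ : ℕ → ℝ} {e : ℕ → ℂ → Pt I} {q : ℕ → ℂ} {b : ℕ → HP}

private theorem stepA_near {x0 : ℝ} {ξ : ℝ → ℝ} (hξ : Continuous ξ) (h0 : ξ 0 = 0) (G : HP → HP)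
    (hG : ∀ z : HP, (G z).1.re = x0 + ξ z.1.im + z.1.im * z.1.re ∧ (G z).1.im = z.1.im)
    (R η : ℝ) (hη : 0 < η) :
    ∃ δ : ℝ, 0 < δ ∧ ∀ z : HP, |z.1.re| < R → z.1.im < δ → ‖(G z).1 - x0‖ < η := by
  have h1 : ∀ᶠ s in 𝓝 (0 : ℝ), |ξ s| < η / 2 := by
    have h2 : Filter.Tendsto (fun s => |ξ s|) (𝓝 0) (𝓝 |ξ 0|) := hξ.abs.tendsto 0
    rw [h0, abs_zero] at h2
    exact h2.eventually (gt_mem_nhds (half_pos hη))
  obtain ⟨δ1, hδ1, hδ⟩ := Metric.eventually_nhds_iff.1 h1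
  refine ⟨min δ1 (η / (2 * (|R| + 1))), lt_min hδ1 (by positivity), fun z hz1 hz2 => ?_⟩
  obtain ⟨hg1, hg2⟩ := hG z
  have hz0 := z.2
  have a1 : |ξ z.1.im| < η / 2 := by
    apply hδ
    rw [Real.dist_eq, sub_zero, abs_of_pos hz0]
    exact hz2.trans_le (min_le_left _ _)
  have a2 : z.1.im * (2 * (|R| + 1)) < η := by
    have := hz2.trans_le (min_le_right _ _)
    rwa [lt_div_iff₀ (by positivity)] at this
  have a3 : ‖(G z).1 - x0‖ ≤ |((G z).1 - x0).re| + |((G z).1 - x0).im| :=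
    Complex.norm_le_abs_re_add_abs_im _
  have a4 : ((G z).1 - x0).re = ξ z.1.im + z.1.im * z.1.re := by
    rw [Complex.sub_re, Complex.ofReal_re, hg1]
    ring
  have a5 : ((G z).1 - x0).im = z.1.im := by
    rw [Complex.sub_im, Complex.ofReal_im, hg2, sub_zero]
  rw [a4, a5, abs_of_pos hz0] at a3
  have a6 : |ξ z.1.im + z.1.im * z.1.re| ≤ |ξ z.1.im| + z.1.im * |z.1.re| := by
    refine (abs_add_le _ _).trans ?_
    rw [abs_mul, abs_of_pos hz0]
  have a7 : z.1.im * |z.1.re| ≤ z.1.im * |R| :=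
    mul_le_mul_of_nonneg_left (hz1.le.trans (le_abs_self R)) hz0.le
  linarith

/-- The new map for a given sequence of discs. -/
theorem step_core (D : StepData x x0 M t) (h : Discs x x0 M t a u ρ e q b) :
    ∃ f : HP → Pt I, Good x x0 M t ∅ f ∧
      ∀ k, ∃ z : HP, z.1 = ⟨u k, (b k).1.im⟩ ∧ f z ∈ a k := by
  obtain ⟨ξ, hξc, hξ0, hξk⟩ := exists_xi (t := fun k => (b k).1.im)
    (y := fun k => (b k).1.re - x0 - (b k).1.im * u k) (fun k => (b k).2) h.strictAnti_im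
    h.tendsto_im h.tendsto_y
  obtain ⟨G, hG⟩ := exists_shear x0 hξc
  choose φ hφq hφ using fun k => exists_ballHomeo (h.disc k).norm_q
  letI := t
  haveI := D.t2
  obtain ⟨F, hF1, hF2⟩ := exists_glue e (fun k => (h.disc k).emb) φ hφ
    (fun j k w w' hw hw' he => h.disjoint hw hw' (by rw [he])) (h.locallyFinite D)
  have hnorm : ∀ k w, ‖w‖ ≤ 1 → ‖φ k w‖ ≤ 1 := by
    intro k w hw
    rcases hw.lt_or_eq with h1 | h1
    · exact (norm_lt_of_homeo (hφ k) h1).le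
    · rw [hφ k w h1.ge]
      exact hw
  have hcase : ∀ z : HP, F (Sum.inl (G z)) = Sum.inl (G z) ∨
      ∃ k w w', ‖w‖ ≤ 1 ∧ ‖w'‖ ≤ 1 ∧ e k w = (Sum.inl (G z) : Pt I) ∧
        F (Sum.inl (G z)) = e k w' := by
    intro z
    by_cases h1 : ∀ k w, ‖w‖ ≤ 1 → e k w ≠ Sum.inl (G z)
    · left
      exact hF2 _ h1
    · right
      push Not at h1
      obtain ⟨k, w, hw, he⟩ := h1
      refine ⟨k, w, φ k w, hw, hnorm k w hw, he, ?_⟩
      rw [← he]
      exact hF1 k w hw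
  have hle : ∀ (K : ℕ) (z : HP) (k : ℕ) (w : ℂ), ‖w‖ ≤ 1 → e k w = (Sum.inl (G z) : Pt I) →
      ‖(G z).1 - x0‖ < ρ K → K ≤ k := by
    intro K z k w hw he hlt
    have h1 := ((h.disc k).annulus w hw).1
    rw [he, pr_inl] at h1
    by_contra hcon
    have h2 : ρ K ≤ ρ (k + 1) := h.strictAnti.antitone (by omega)
    linarith
  refine ⟨fun z => F (Sum.inl (G z)), ⟨?_, ?_, ?_, ?_, ?_⟩, ?_⟩
  · intro z
    rcases hcase z with h1 | ⟨k, w, w', hw, hw', he, h1⟩
    · show F (Sum.inl (G z)) ∈ M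
      rw [h1]
      exact D.inl_mem _
    · show F (Sum.inl (G z)) ∈ M
      rw [h1]
      exact (h.disc k).mem w'
  · exact F.isOpenEmbedding.comp (D.inl_emb.comp G.isOpenEmbedding)
  · intro R ε hε
    obtain ⟨K, hK⟩ := (h.tendsto.eventually (gt_mem_nhds hε)).exists
    obtain ⟨δ, hδ, hn⟩ := stepA_near hξc hξ0 G hG R (min ε (ρ K)) (lt_min hε (h.pos K))
    refine ⟨δ, hδ, fun z hz1 hz2 => ?_⟩
    have h0 := hn z hz1 hz2
    show ‖pr x (F (Sum.inl (G z))) - x0‖ < ε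
    rcases hcase z with h1 | ⟨k, w, w', hw, hw', he, h1⟩
    · rw [h1, pr_inl]
      exact h0.trans_le (min_le_left _ _)
    · have h2 := hle K z k w hw he (h0.trans_le (min_le_right _ _))
      rw [h1]
      have h3 : ρ k ≤ ρ K := h.strictAnti.antitone h2
      exact (((h.disc k).annulus w' hw').2.trans_le h3).trans hK
  · intro R ε hε
    obtain ⟨K, hK⟩ := exists_nat_one_div_lt hε
    obtain ⟨δ, hδ, hn⟩ := stepA_near hξc hξ0 G hG R (ρ K) (h.pos K)
    refine ⟨δ, hδ, fun z z' hz1 hz2 hz1' hz2' γ s s' hs hs' => ?_⟩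
    have hs1 : F (Sum.inl (G z)) = Sum.inr (γ, s) := hs
    have hs1' : F (Sum.inl (G z')) = Sum.inr (γ, s') := hs'
    rcases hcase z with h1 | ⟨k, w, w1, hw, hw1, he, h1⟩
    · rw [h1] at hs1
      cases hs1
    · rcases hcase z' with h1' | ⟨k', w', w1', hw', hw1', he', h1'⟩
      · rw [h1'] at hs1'
        cases hs1'
      · have h2 := hle K z k w hw he (hn z hz1 hz2)
        rw [h1] at hs1
        rw [h1'] at hs1'
        have hk : k = k' := h.disjoint hw1 hw1' (by rw [hs1, hs1', pr_inr, pr_inr])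
        subst hk
        refine ((h.disc k).small γ s s' w1 w1' hw1 hw1' hs1 hs1').trans ((one_div_le_one_div_of_le
          (by positivity) ?_).trans_lt hK)
        have : (K : ℝ) ≤ k := by exact_mod_cast h2
        linarith
  · intro c hc
    exact absurd hc (Set.notMem_empty c)
  · intro k
    refine ⟨⟨⟨u k, (b k).1.im⟩, (b k).2⟩, rfl, ?_⟩
    have h1 : G ⟨⟨u k, (b k).1.im⟩, (b k).2⟩ = b k := by
      obtain ⟨g1, g2⟩ := hG ⟨⟨u k, (b k).1.im⟩, (b k).2⟩
      apply Subtype.ext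
      apply Complex.ext
      · rw [g1]
        have h2 : ξ (b k).1.im = (b k).1.re - x0 - (b k).1.im * u k := hξk k
        show x0 + ξ (b k).1.im + (b k).1.im * u k = (b k).1.re
        rw [h2]
        ring
      · rw [g2]
    have hq := (h.disc k).norm_q
    show F (Sum.inl (G ⟨⟨u k, (b k).1.im⟩, (b k).2⟩)) ∈ a k
    rw [h1, ← (h.disc k).eq_b, hF1 k (q k) (by linarith), hφq k]
    exact (h.disc k).center

end Pool.Agent.Lib.MP_7c9e3d_gt
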