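import Pool.Agent.Lib.MP_7c9e3d_gt.StepA

/-!
# JOB StepB: the new map

* `exists_enum`: `T × ℚ` is countable and nonempty, `f : ℕ → T × ℚ` surjective (`exists_surjective_nat`), use `k ↦ f (Nat.unpair k).1` (`Nat.pair j n ≥ n` is mapped to `f j`).
* `step`: `T' = insert (range inl) T` (`x0` is in the closure of the half plane, so `range inl` satisfies the requirements: `pr x (inl z) = z`, the points `x0 + i t`); `exists_enum` gives `a`, `u`; `exists_discs`, `Discs`,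
  `step_core` give `f`; `hit`: for real `u'` choose a rational `r` with `|u' - r| < ε / 2`, `N` with `(b k).im < ε / 2` for `k ≥ N` (`Discs.tendsto_im`) and `k ≥ N` with `(a k, u k) = (a, r)`.
-/

open Topology

namespace Pool.Agent.Lib.MP_7c9e3d_gt

variable {I : Type}

theorem exists_enum {X : Type*} {T : Set X} (hT : T.Countable) (hne : T.Nonempty) :
    ∃ (a : ℕ → X) (u : ℕ → ℝ), (∀ k, a k ∈ T) ∧
      ∀ c ∈ T, ∀ r : ℚ, ∀ n : ℕ, ∃ k, n ≤ k ∧ a k = c ∧ u k = r := by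
  haveI : Countable T := hT.to_subtype
  haveI : Nonempty T := hne.to_subtype
  obtain ⟨f, hf⟩ := exists_surjective_nat (T × ℚ)
  refine ⟨fun k => ((f (Nat.unpair k).1).1 : X), fun k => ((f (Nat.unpair k).1).2 : ℝ),
    fun k => (f (Nat.unpair k).1).1.2, fun c hc r n => ?_⟩
  obtain ⟨j, hj⟩ := hf (⟨c, hc⟩, r)
  refine ⟨Nat.pair j n, Nat.right_le_pair j n, ?_, ?_⟩
  · show ((f (Nat.unpair (Nat.pair j n)).1).1 : X) = c
    rw [Nat.unpair_pair, hj]
  · show ((f (Nat.unpair (Nat.pair j n)).1).2 : ℝ) = r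
    rw [Nat.unpair_pair, hj]

variable {x : I → ℝ} {x0 : ℝ} {M : Set (Pt I)} {t : TopologicalSpace (Pt I)}

theorem step (D : StepData x x0 M t) {T : Set (Set (Pt I))} (hT : T.Countable)
    (hT' : ∀ a ∈ T, a ⊆ M ∧ (x0 : ℂ) ∈ closure (pr x '' a)) :
    ∃ f : HP → Pt I, Good x x0 M t T f := by
  have hins : ∀ a ∈ insert (Set.range (Sum.inl : HP → Pt I)) T,
      a ⊆ M ∧ (x0 : ℂ) ∈ closure (pr x '' a) := by
    intro a ha
    rcases Set.mem_insert_iff.1 ha with rfl | ha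
    · refine ⟨?_, Metric.mem_closure_iff.2 fun ε hε => ?_⟩
      · rintro _ ⟨z, rfl⟩
        exact D.inl_mem z
      · refine ⟨(⟨x0, ε / 2⟩ : ℂ), ⟨Sum.inl ⟨⟨x0, ε / 2⟩, half_pos hε⟩, ⟨_, rfl⟩, rfl⟩, ?_⟩
        rw [dist_eq_norm]
        have h1 : (x0 : ℂ) - (⟨x0, ε / 2⟩ : ℂ) = (((-(ε / 2) : ℝ)) : ℂ) * Complex.I := by
          apply Complex.ext <;> simp
        rw [h1, norm_mul, Complex.norm_I, mul_one, Complex.norm_real, Real.norm_eq_abs, abs_neg,
          abs_of_pos (half_pos hε)]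
        exact half_lt_self hε
    · exact hT' a ha
  obtain ⟨a, u, ha, hau⟩ := exists_enum (hT.insert (Set.range (Sum.inl : HP → Pt I)))
    (Set.insert_nonempty _ _)
  obtain ⟨ρ, e, q, b, h1, h2, h3⟩ := exists_discs D a (fun k => (hins _ (ha k)).1)
    (fun k => (hins _ (ha k)).2) u
  have hD : Discs x x0 M t a u ρ e q b := ⟨h1, h2, h3⟩
  obtain ⟨f, hf, hz⟩ := step_core D hD
  refine ⟨f, ⟨hf.maps, hf.emb, hf.lim, hf.small, ?_⟩⟩
  intro c hc v ε hε
  obtain ⟨r, hr1, hr2⟩ := exists_rat_btwn (show v < v + ε / 2 by linarith)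
  obtain ⟨N, hN⟩ := Filter.eventually_atTop.1 (hD.tendsto_im.eventually (gt_mem_nhds (half_pos hε)))
  obtain ⟨k, hk, hak, huk⟩ := hau c (Set.mem_insert_of_mem _ hc) r N
  obtain ⟨z, hz1, hz2⟩ := hz k
  refine ⟨z, ?_, hak ▸ hz2⟩
  have h4 := hN k hk
  have h5 : 0 < (b k).1.im := (b k).2
  have h6 := Complex.norm_le_abs_re_add_abs_im (z.1 - v)
  have h7 : (z.1 - v).re = r - v := by
    rw [hz1, Complex.sub_re, Complex.ofReal_re, ← huk]
  have h8 : (z.1 - v).im = (b k).1.im := by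
    rw [hz1, Complex.sub_im, Complex.ofReal_im, sub_zero]
  rw [h7, h8, abs_of_pos h5, abs_of_pos (by linarith)] at h6
  linarith

end Pool.Agent.Lib.MP_7c9e3d_gt
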