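import Pool.Agent.Lib.MP_7c9e3d_gt.FDat
import Pool.Agent.Lib.MP_7c9e3d_gt.Psi

/-!
# Local compactness and the Lindelöf property
-/

open Topology

namespace Pool.Agent.Lib.MP_7c9e3d_gt

variable {I : Type} [LinearOrder I] {x : I → ℝ}

private theorem tfa_nhds {X Y : Type*} [TopologicalSpace X] [TopologicalSpace Y]
    [LocallyCompactSpace X] {f : X → Y} (hf : IsOpenEmbedding f) (a : X) {n : Set Y}
    (hn : n ∈ 𝓝 (f a)) : ∃ s ∈ 𝓝 (f a), s ⊆ n ∧ IsCompact s := by
  obtain ⟨s, hs, hsn, hc⟩ := local_compact_nhds (hf.continuous.continuousAt.preimage_mem_nhds hn)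
  exact ⟨f '' s, hf.isOpenMap.image_mem_nhds hs, Set.image_subset_iff.2 hsn,
    hc.image hf.continuous⟩

private theorem tfa_HP : LocallyCompactSpace HP := by
  have h : IsOpen {z : ℂ | 0 < z.im} := isOpen_lt continuous_const Complex.continuous_im
  exact h.locallyCompactSpace

theorem FinalData.locallyCompact {t : TopologicalSpace (Pt I)} (D : FinalData x t) :
    @LocallyCompactSpace (Pt I) t := by
  let := t
  have := tfa_HP
  refine ⟨fun p n hn => ?_⟩
  rcases p with z | ⟨α, s⟩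
  · exact tfa_nhds D.inl_emb z hn
  · obtain ⟨e, he, he1, -⟩ := D.chart α
    obtain ⟨w, hw⟩ := he1 s
    rw [← hw] at hn ⊢
    exact tfa_nhds he w hn

private theorem tfa_lind {X Y : Type*} [TopologicalSpace X] [TopologicalSpace Y]
    [SecondCountableTopology X] {f : X → Y} (hf : Continuous f) (s : Set Y) :
    IsLindelof (f '' (f ⁻¹' s)) :=
  (HereditarilyLindelofSpace.isLindelof (f ⁻¹' s)).image hf

theorem FinalData.lindelof {t : TopologicalSpace (Pt I)} (D : FinalData x t) (s : Set (Pt I))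
    (α : I) : @IsLindelof (Pt I) t (s ∩ MS (Set.Iio α)) := by
  let := t
  choose e he he1 he2 using D.chart
  have h1 : s ∩ MS (Set.Iio α) =
      (Sum.inl '' ((Sum.inl : HP → Pt I) ⁻¹' s)) ∪
        ⋃ β ∈ Set.Iio α, e β '' (e β ⁻¹' s) := by
    ext p
    constructor
    · rintro ⟨hp, hp2⟩
      rcases mem_MS_or hp2 with ⟨z, rfl⟩ | ⟨β, hβ, s', rfl⟩
      · exact Or.inl ⟨z, hp, rfl⟩
      · obtain ⟨w, hw⟩ := he1 β s'
        refine Or.inr (Set.mem_biUnion hβ ⟨w, ?_, hw⟩)
        rw [Set.mem_preimage, hw]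
        exact hp
    · rintro (⟨z, hz, rfl⟩ | hp)
      · exact ⟨hz, inl_mem_MS z⟩
      · rw [Set.mem_iUnion₂] at hp
        obtain ⟨β, hβ, w, hw, rfl⟩ := hp
        exact ⟨hw, MS_mono (fun γ hγ => lt_of_le_of_lt hγ hβ) (he2 β w)⟩
  rw [h1]
  exact (tfa_lind D.inl_emb.continuous s).union
    ((D.count α).isLindelof_biUnion fun β _ => tfa_lind (he β).continuous s)

end Pool.Agent.Lib.MP_7c9e3d_gt
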